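import Pool.Agent.Helper56.PNT

/-!
Primes in `[(1 - ε) k, k]` for all large `k`, from the prime number theorem.
-/

namespace Pool.Agent.Helper74.SD

open Filter Topology

theorem exists_prime_near (ε : ℝ) (hε : 0 < ε) : ∃ K : ℕ, ∀ k : ℕ, K ≤ k →
    ∃ p : ℕ, p.Prime ∧ p ≤ k ∧ (1 - ε) * (k : ℝ) ≤ p := by
  wlog h1 : ε < 1 generalizing ε
  · obtain ⟨K, hK⟩ := this (1 / 2) (by norm_num) (by norm_num)
    refine ⟨K, fun k hk => ?_⟩
    obtain ⟨p, hp, hpk, hp2⟩ := hK k hk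
    refine ⟨p, hp, hpk, le_trans ?_ hp2⟩
    have : (0 : ℝ) ≤ k := Nat.cast_nonneg k
    nlinarith
  have h0 := Helper56.theta_div_tendsto
  have h2 : ∀ᶠ x : ℝ in atTop, 1 - ε / 4 < Chebyshev.theta x / x :=
    h0.eventually (lt_mem_nhds (by linarith))
  have h3 : ∀ᶠ x : ℝ in atTop, Chebyshev.theta x / x < 1 + ε / 4 :=
    h0.eventually (gt_mem_nhds (by linarith))
  have t1 : Tendsto (fun k : ℕ => (k : ℝ)) atTop atTop := tendsto_natCast_atTop_atTop
  have t2 : Tendsto (fun k : ℕ => (1 - ε) * (k : ℝ)) atTop atTop :=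
    t1.const_mul_atTop (by linarith)
  have h4 := (t1.eventually h2).and ((t2.eventually h3).and
    (eventually_ge_atTop (1 : ℕ)))
  obtain ⟨K, hK⟩ := eventually_atTop.1 h4
  refine ⟨K, fun k hk => ?_⟩
  obtain ⟨e1, e2, e3⟩ := hK k hk
  have hk0 : (0 : ℝ) < k := Nat.cast_pos.2 e3
  have hk1 : (0 : ℝ) < (1 - ε) * k := mul_pos (by linarith) hk0
  rw [lt_div_iff₀ hk0] at e1
  rw [div_lt_iff₀ hk1] at e2
  by_contra hno
  push Not at hno
  have h5 : Chebyshev.theta (k : ℝ) ≤ Chebyshev.theta ((1 - ε) * (k : ℝ)) := by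
    unfold Chebyshev.theta
    apply Finset.sum_le_sum_of_subset_of_nonneg
    · intro q hq
      simp only [Finset.mem_filter, Finset.mem_Ioc, Nat.floor_natCast] at hq ⊢
      refine ⟨⟨hq.1.1, ?_⟩, hq.2⟩
      exact Nat.le_floor (hno q hq.2 hq.1.2).le
    · intro q hq _
      simp only [Finset.mem_filter, Finset.mem_Ioc] at hq
      exact Real.log_natCast_nonneg q
  have h6 : (1 - ε / 4) * (k : ℝ) < (1 + ε / 4) * ((1 - ε) * k) := by linarith
  have h7 : (1 + ε / 4) * ((1 - ε) * (k : ℝ)) ≤ (1 - ε / 4) * (k : ℝ) := by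
    have : (1 + ε / 4) * (1 - ε) ≤ 1 - ε / 4 := by nlinarith
    nlinarith
  linarith

end Pool.Agent.Helper74.SD
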