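import Mathlib

/-!
# Sums of determinants of linear matrices for quaternary forms: definitions
-/

namespace Pool.Agent.Helper74.SD

open MvPolynomial

/-- `f` is a sum of `s` determinants of `k × k` matrices of linear forms in four variables. -/
def IsSumOfDets (k s : ℕ) (f : MvPolynomial (Fin 4) ℂ) : Prop :=
  ∃ G : Fin s → Matrix (Fin k) (Fin k) (MvPolynomial (Fin 4) ℂ),
    (∀ i a b, (G i a b).IsHomogeneous 1) ∧ f = ∑ i, (G i).det

/-- A general form of degree `k` in four variables is a sum of `s` determinants of `k × k` matrices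
of linear forms: there is a polynomial `P` in the coefficients which does not vanish identically on
the forms of degree `k`, such that every form `f` of degree `k` with `P(f) ≠ 0` is such a sum. -/
def GeneralIsSumOfDets (k s : ℕ) : Prop :=
  ∃ P : MvPolynomial (Fin 4 →₀ ℕ) ℂ,
    (∃ f : MvPolynomial (Fin 4) ℂ, f.IsHomogeneous k ∧ eval (fun n => coeff n f) P ≠ 0) ∧
    ∀ f : MvPolynomial (Fin 4) ℂ, f.IsHomogeneous k → eval (fun n => coeff n f) P ≠ 0 →
      IsSumOfDets k s f

end Pool.Agent.Helper74.SD
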