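import Mathlib

/-!
Jacobi's formula for derivations, and coefficientwise derivations of `MvPolynomial`.
-/

open MvPolynomial Finset

namespace Pool.Agent.Helper74.SD

section
variable {R B : Type*} [CommRing R] [CommRing B] [Algebra R B]

theorem derivation_prod {κ : Type*} [DecidableEq κ] (D : Derivation R B B) (s : Finset κ)
    (f : κ → B) : D (∏ i ∈ s, f i) = ∑ i ∈ s, (∏ j ∈ s.erase i, f j) * D (f i) := by
  induction s using Finset.induction_on with
  | empty => simp
  | insert a s ha ih =>
    rw [Finset.prod_insert ha, Derivation.leibniz, ih, Finset.sum_insert ha,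
      Finset.erase_insert ha, smul_eq_mul, smul_eq_mul, Finset.mul_sum, add_comm]
    congr 1
    refine Finset.sum_congr rfl fun i hi => ?_
    have hne : a ≠ i := by rintro rfl; exact ha hi
    rw [Finset.erase_insert_of_ne hne, Finset.prod_insert (by
      intro h; exact ha (Finset.mem_of_mem_erase h))]
    ring

/-- **Jacobi's formula** for derivations. -/
theorem derivation_det {κ : Type*} [Fintype κ] [DecidableEq κ] (D : Derivation R B B)
    (M : Matrix κ κ B) : D M.det = ∑ a, ∑ b, M.adjugate b a * D (M a b) := by
  have h1 : D M.det = ∑ i, (M.updateCol i fun a => D (M a i)).det := by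
    rw [Matrix.det_apply, map_sum]
    simp_rw [Matrix.det_apply]
    rw [Finset.sum_comm]
    refine Finset.sum_congr rfl fun σ _ => ?_
    have h2 : D (Equiv.Perm.sign σ • ∏ i, M (σ i) i) = Equiv.Perm.sign σ • D (∏ i, M (σ i) i) := by
      rcases Int.units_eq_one_or (Equiv.Perm.sign σ) with h | h <;> simp [h]
    rw [h2, derivation_prod, Finset.smul_sum]
    refine Finset.sum_congr rfl fun i _ => ?_
    congr 1
    rw [← Finset.mul_prod_erase Finset.univ _ (Finset.mem_univ i), Matrix.updateCol_self, mul_comm]
    congr 1
    refine Finset.prod_congr rfl fun j hj => ?_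
    rw [Matrix.updateCol_ne (Finset.ne_of_mem_erase hj)]
  rw [h1, Finset.sum_comm]
  refine Finset.sum_congr rfl fun i _ => ?_
  have h3 := congrFun (Matrix.cramer_eq_adjugate_mulVec M (fun a => D (M a i))) i
  rw [Matrix.cramer_apply] at h3
  rw [h3]
  rfl

end

section
variable {A τ : Type*} [CommRing A] [Algebra ℂ A]

/-- The function applying `D` to all coefficients. -/
noncomputable def mapCoeffFun (D : Derivation ℂ A A) (f : MvPolynomial τ A) : MvPolynomial τ A :=
  ∑ m ∈ f.support, monomial m (D (coeff m f))

theorem coeff_mapCoeffFun (D : Derivation ℂ A A) (f : MvPolynomial τ A) (n : τ →₀ ℕ) :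
    coeff n (mapCoeffFun D f) = D (coeff n f) := by
  classical
  unfold mapCoeffFun
  rw [coeff_sum]
  simp only [coeff_monomial]
  rw [Finset.sum_ite_eq']
  by_cases h : n ∈ f.support
  · rw [if_pos h]
  · rw [if_neg h, notMem_support_iff.1 h, map_zero]

/-- The derivation of `MvPolynomial τ A` applying `D` to all coefficients. -/
noncomputable def mapCoeffDer (D : Derivation ℂ A A) :
    Derivation ℂ (MvPolynomial τ A) (MvPolynomial τ A) :=
  Derivation.mk'
    { toFun := mapCoeffFun D
      map_add' := fun f g => by
        ext n
        rw [coeff_add, coeff_mapCoeffFun, coeff_mapCoeffFun, coeff_mapCoeffFun, coeff_add, map_add]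
      map_smul' := fun c f => by
        ext n
        rw [RingHom.id_apply, coeff_smul, coeff_mapCoeffFun, coeff_mapCoeffFun, coeff_smul,
          D.map_smul] }
    (fun f g => by
      classical
      ext n
      simp only [LinearMap.coe_mk, AddHom.coe_mk, coeff_add, smul_eq_mul]
      rw [coeff_mapCoeffFun, coeff_mul, coeff_mul, coeff_mul, map_sum]
      simp only [Derivation.leibniz, smul_eq_mul, coeff_mapCoeffFun, Finset.sum_add_distrib]
      congr 1
      rw [← Finset.sum_equiv (Equiv.prodComm _ _) (s := antidiagonal n) (t := antidiagonal n)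
        (f := fun x => coeff x.2 g * D (coeff x.1 f))
        (g := fun x => coeff x.1 g * D (coeff x.2 f))]
      · intro x
        simp [add_comm]
      · intro x _
        simp)

theorem coeff_mapCoeffDer (D : Derivation ℂ A A) (f : MvPolynomial τ A) (n : τ →₀ ℕ) :
    coeff n (mapCoeffDer D f) = D (coeff n f) := coeff_mapCoeffFun D f n

end

end Pool.Agent.Helper74.SD
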