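import Pool.Agent.Helper74.SD.Generic
import Pool.Agent.Helper74.SD.Jacobi
import Pool.Agent.Helper74.SD.Defs

/-!
Reduction: if the submaximal minors of the matrices `G i` times the variables span the forms of
degree `k`, then a general form of degree `k` is a sum of determinants.
-/

namespace Pool.Agent.Helper74.SD

open MvPolynomial Finset

/-- The exponents of degree `k`. -/
noncomputable def Dl (k : ℕ) : Finset (Fin 4 →₀ ℕ) := Finset.finsuppAntidiag Finset.univ k

theorem mem_Dl {k : ℕ} {n : Fin 4 →₀ ℕ} : n ∈ Dl k ↔ n 0 + n 1 + n 2 + n 3 = k := by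
  unfold Dl
  rw [Finset.mem_finsuppAntidiag, Fin.sum_univ_four]
  simp

theorem mem_Dl_degree {k : ℕ} {n : Fin 4 →₀ ℕ} : n ∈ Dl k ↔ n.degree = k := by
  rw [mem_Dl, Finsupp.degree_eq_sum, Fin.sum_univ_four]

/-- The submaximal minors of the matrices times the variables span the forms of degree `k`
(dual formulation). -/
def Spans (k : ℕ) {I κ : Type} [Fintype κ] [DecidableEq κ]
    (G : I → Matrix κ κ (MvPolynomial (Fin 4) ℂ)) : Prop :=
  ∀ φ : (Fin 4 →₀ ℕ) → ℂ,
    (∀ i a b j, ∑ n ∈ Dl k, φ n * coeff n (X j * (G i).adjugate a b) = 0) → ∀ n ∈ Dl k, φ n = 0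

/-- The matrix of linear forms with coefficients `c`. -/
noncomputable def LM {κ : Type} {A : Type} [CommRing A] (c : κ → κ → Fin 4 → A) :
    Matrix κ κ (MvPolynomial (Fin 4) A) :=
  Matrix.of fun a b => ∑ j, C (c a b j) * X j

theorem mapCoeffDer_C_mul_X {A : Type} [CommRing A] [Algebra ℂ A] (D : Derivation ℂ A A) (r : A)
    (j : Fin 4) : mapCoeffDer D (C r * X j : MvPolynomial (Fin 4) A) = C (D r) * X j := by
  classical
  ext n
  rw [coeff_mapCoeffDer, coeff_C_mul, coeff_C_mul, coeff_X]
  split_ifs <;> simp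

theorem coeff_LM_det_hom {κ : Type} [Fintype κ] [DecidableEq κ] (c : κ → κ → Fin 4 → ℂ) :
    (LM c).det.IsHomogeneous (Fintype.card κ) := by
  rw [Matrix.det_apply]
  apply IsHomogeneous.sum
  intro σ _
  have h1 : (∏ i, LM c (σ i) i).IsHomogeneous (∑ _i : κ, 1) := by
    apply IsHomogeneous.prod
    intro i _
    simp only [LM, Matrix.of_apply]
    apply IsHomogeneous.sum
    intro j _
    exact (isHomogeneous_C_mul_X _ _)
  rw [Finset.sum_const, smul_eq_mul, mul_one, Finset.card_univ] at h1
  rcases Int.units_eq_one_or (Equiv.Perm.sign σ) with h | h <;> rw [h]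
  · simpa using h1
  · simpa using h1.neg

theorem general_of_spans {k s : ℕ} {I κ : Type} [Fintype I] [Fintype κ] [DecidableEq κ]
    [DecidableEq I] (hI : Fintype.card I ≤ s) (hκ : Fintype.card κ = k) (hk : 1 ≤ k)
    (c : I → κ → κ → Fin 4 → ℂ) (h : Spans k (fun i => LM (c i))) : GeneralIsSumOfDets k s := by
  classical
  let σ : Type := I × κ × κ × Fin 4
  let A : Type := MvPolynomial σ ℂ
  let U : I → Matrix κ κ (MvPolynomial (Fin 4) A) :=
    fun i => LM (fun a b j => (X (i, a, b, j) : MvPolynomial σ ℂ))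
  let F : MvPolynomial (Fin 4) A := ∑ i, (U i).det
  let Φ : {n // n ∈ Dl k} → MvPolynomial σ ℂ := fun n => coeff n.1 F
  let z0 : σ → ℂ := fun v => c v.1 v.2.1 v.2.2.1 v.2.2.2
  -- evaluation of the universal matrices
  have hev : ∀ (z : σ → ℂ) (i : I), (MvPolynomial.map (eval z)).mapMatrix (U i) =
      LM (fun a b j => z (i, a, b, j)) := by
    intro z i
    ext1 a b
    simp [U, LM]
  -- derivative of the coefficients
  have hU : ∀ (i i' : I) (a b a' b' : κ) (j : Fin 4),
      mapCoeffDer (pderiv (R := ℂ) (i, a, b, j)) (U i' a' b') =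
        if i' = i ∧ a' = a ∧ b' = b then X j else 0 := by
    intro i i' a b a' b' j
    simp only [U, LM, Matrix.of_apply, map_sum]
    rw [Finset.sum_congr rfl (fun j' _ => mapCoeffDer_C_mul_X _ _ _)]
    simp only [pderiv_X, Pi.single_apply, Prod.mk.injEq]
    by_cases h1 : i' = i ∧ a' = a ∧ b' = b
    · rw [if_pos h1, Finset.sum_eq_single j]
      · rw [if_pos ⟨h1.1, h1.2.1, h1.2.2, rfl⟩, C_1, one_mul]
      · intro j' _ hj'
        rw [if_neg (fun h2 => hj' h2.2.2.2), C_0, zero_mul]
      · simp
    · rw [if_neg h1]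
      apply Finset.sum_eq_zero
      intro j' _
      rw [if_neg (fun h2 => h1 ⟨h2.1, h2.2.1, h2.2.2.1⟩), C_0, zero_mul]
  have hder : ∀ (i : I) (a b : κ) (j : Fin 4) (n : Fin 4 →₀ ℕ),
      pderiv (i, a, b, j) (coeff n F) = coeff n (X j * (U i).adjugate b a) := by
    intro i a b j n
    have h1 := coeff_mapCoeffDer (τ := Fin 4) (pderiv (R := ℂ) (i, a, b, j)) F n
    rw [← h1]
    congr 1
    simp only [F]
    rw [map_sum, Finset.sum_eq_single i]
    · rw [derivation_det, Finset.sum_eq_single a, Finset.sum_eq_single b]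
      · rw [hU, if_pos ⟨rfl, rfl, rfl⟩, mul_comm]
      · intro b' _ hb'
        rw [hU, if_neg (fun h2 => hb' h2.2.2), mul_zero]
      · simp
      · intro a' _ ha'
        apply Finset.sum_eq_zero
        intro b' _
        rw [hU, if_neg (fun h2 => ha' h2.2.1), mul_zero]
      · simp
    · intro i' _ hi'
      rw [derivation_det]
      apply Finset.sum_eq_zero
      intro a' _
      apply Finset.sum_eq_zero
      intro b' _
      rw [hU, if_neg (fun h2 => hi' h2.1), mul_zero]
    · simp
  -- coefficients and evaluation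
  have hce : ∀ (z : σ → ℂ) (f : MvPolynomial (Fin 4) A) (n : Fin 4 →₀ ℕ),
      eval z (coeff n f) = coeff n (MvPolynomial.map (eval z) f) := by
    intro z f n
    rw [coeff_map]
  have hinj := injective_of_jacobian Φ z0 (by
    intro φ hφ
    let φ' : (Fin 4 →₀ ℕ) → ℂ := fun n => if hn : n ∈ Dl k then φ ⟨n, hn⟩ else 0
    have h1 := h φ' (by
      intro i a b j
      have h2 := hφ (i, b, a, j)
      rw [← h2, ← Finset.sum_coe_sort (Dl k)]
      refine Finset.sum_congr rfl fun n _ => ?_
      have h3 : φ' n.1 = φ n := by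
        simp only [φ']
        rw [dif_pos n.2]
      rw [h3, hder, hce, map_mul, map_X]
      congr 3
      have h4 := congrArg (fun M => M a b) (RingHom.map_adjugate (MvPolynomial.map (eval z0)) (U i))
      simp only [RingHom.mapMatrix_apply, Matrix.map_apply] at h4
      rw [h4]
      have h5 := hev z0 i
      rw [RingHom.mapMatrix_apply] at h5
      rw [h5])
    ext n
    have h2 := h1 n.1 n.2
    simp only [φ'] at h2
    rw [dif_pos n.2] at h2
    exact h2)
  obtain ⟨P, hP, hPz⟩ := exists_generic Φ hinj
  refine ⟨rename Subtype.val P, ?_, ?_⟩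
  · obtain ⟨y, hy⟩ : ∃ y : {n // n ∈ Dl k} → ℂ, eval y P ≠ 0 := by
      by_contra hcon
      push Not at hcon
      exact hP (MvPolynomial.funext (fun y => by rw [hcon y, map_zero]))
    refine ⟨∑ n : {n // n ∈ Dl k}, monomial n.1 (y n), ?_, ?_⟩
    · apply IsHomogeneous.sum
      intro n _
      apply isHomogeneous_monomial
      exact mem_Dl_degree.1 n.2
    · rw [eval_rename]
      have h1 : ((fun n => coeff n (∑ n : {n // n ∈ Dl k}, monomial n.1 (y n))) ∘ Subtype.val) =
          y := by
        ext n
        simp only [Function.comp_apply, coeff_sum, coeff_monomial]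
        rw [Finset.sum_eq_single n]
        · simp
        · intro m _ hm
          rw [if_neg (fun h2 => hm (Subtype.ext h2))]
        · simp
      rw [h1]
      exact hy
  · intro f hf hfP
    rw [eval_rename] at hfP
    obtain ⟨z, hz⟩ := hPz _ hfP
    -- the matrices
    let M : I → Matrix κ κ (MvPolynomial (Fin 4) ℂ) := fun i => LM (fun a b j => z (i, a, b, j))
    have hfM : f = ∑ i, (M i).det := by
      ext n
      by_cases hn : n ∈ Dl k
      · have h1 := hz ⟨n, hn⟩
        simp only [Φ, Function.comp_apply] at h1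
        rw [← h1, hce]
        congr 1
        simp only [F]
        rw [map_sum]
        refine Finset.sum_congr rfl fun i _ => ?_
        rw [RingHom.map_det, hev]
      · have h1 : n.degree ≠ k := fun h2 => hn (mem_Dl_degree.2 h2)
        rw [hf.coeff_eq_zero h1, coeff_sum]
        symm
        apply Finset.sum_eq_zero
        intro i _
        apply (coeff_LM_det_hom _).coeff_eq_zero
        rw [hκ]
        exact h1
    -- reindex
    obtain ⟨e⟩ : Nonempty (κ ≃ Fin k) := ⟨(Fintype.equivFin κ).trans (finCongr hκ)⟩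
    obtain ⟨g⟩ : Nonempty (I ↪ Fin s) := by
      apply Function.Embedding.nonempty_of_card_le
      rwa [Fintype.card_fin]
    refine ⟨fun t => if ht : ∃ i, g i = t then ((M ht.choose).submatrix e.symm e.symm) else 0,
      ?_, ?_⟩
    · intro t a b
      beta_reduce
      split_ifs with ht
      · simp only [M, Matrix.submatrix_apply, LM, Matrix.of_apply]
        apply IsHomogeneous.sum
        intro j _
        exact (isHomogeneous_C_mul_X _ _)
      · simp only [Matrix.zero_apply]
        exact isHomogeneous_zero _ _ _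
    · rw [hfM]
      have hk' : Nonempty (Fin k) := ⟨⟨0, hk⟩⟩
      have h1 : ∀ t : Fin s, t ∉ Finset.univ.map g →
          (if ht : ∃ i, g i = t then ((M ht.choose).submatrix e.symm e.symm) else 0).det = 0 := by
        intro t ht
        rw [dif_neg]
        · exact Matrix.det_zero
        · rintro ⟨i, hi⟩
          exact ht (Finset.mem_map.2 ⟨i, Finset.mem_univ _, hi⟩)
      rw [← Finset.sum_subset (Finset.subset_univ (Finset.univ.map g)) (fun t _ ht => h1 t ht),
        Finset.sum_map]
      refine Finset.sum_congr rfl fun i _ => ?_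
      have hex : ∃ i', g i' = g i := ⟨i, rfl⟩
      rw [dif_pos hex, Matrix.det_submatrix_equiv_self, g.injective hex.choose_spec]

end Pool.Agent.Helper74.SD
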