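import Mathlib

/-!
Generic translates of a space of vectors by a one-parameter torus span.
-/

namespace Pool.Agent.Helper74.SD

open Polynomial Finset Module

section rank
variable {V W : Type*} [AddCommGroup V] [Module ℂ V] [AddCommGroup W] [Module ℂ W]
  [FiniteDimensional ℂ V]

theorem finrank_inf_ker (K : Submodule ℂ V) (T : V →ₗ[ℂ] W) :
    finrank ℂ (K.map T) + finrank ℂ (K ⊓ LinearMap.ker T : Submodule ℂ V) = finrank ℂ K := by
  have h1 := LinearMap.finrank_range_add_finrank_ker (T.domRestrict K)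
  have h2 : LinearMap.range (T.domRestrict K) = K.map T := by
    ext x
    simp [Submodule.mem_map]
  have h3 : finrank ℂ (LinearMap.ker (T.domRestrict K)) =
      finrank ℂ (K ⊓ LinearMap.ker T : Submodule ℂ V) := by
    have h4 : (K ⊓ LinearMap.ker T : Submodule ℂ V) =
        (LinearMap.ker (T.domRestrict K)).map K.subtype := by
      ext x
      simp only [Submodule.mem_inf, LinearMap.mem_ker, Submodule.mem_map, Submodule.subtype_apply]
      constructor
      · rintro ⟨hx1, hx2⟩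
        exact ⟨⟨x, hx1⟩, hx2, rfl⟩
      · rintro ⟨y, hy, rfl⟩
        exact ⟨y.2, hy⟩
    rw [h4]
    exact (Submodule.equivMapOfInjective K.subtype K.injective_subtype _).finrank_eq
  rw [h2, h3] at h1
  exact h1

end rank

variable {E : Type*} [Fintype E]

/-- The polynomial `∑ φ n w n X ^ ν n`. -/
noncomputable def PF (ν : E → ℕ) (w : E → ℂ) (φ : E → ℂ) : ℂ[X] := ∑ n, C (φ n * w n) * X ^ ν n

theorem PF_coeff {ν : E → ℕ} (hν : Function.Injective ν) (w φ : E → ℂ) (n : E) :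
    (PF ν w φ).coeff (ν n) = φ n * w n := by
  classical
  unfold PF
  rw [finsetSum_coeff, Finset.sum_eq_single n]
  · rw [coeff_C_mul, coeff_X_pow, if_pos rfl, mul_one]
  · intro m _ hm
    rw [coeff_C_mul, coeff_X_pow, if_neg (fun h => hm (hν h.symm)), mul_zero]
  · simp

theorem PF_natDegree {ν : E → ℕ} (w φ : E → ℂ) (d : ℕ) (h : ∀ n, d < ν n → φ n = 0) :
    (PF ν w φ).natDegree ≤ d := by
  unfold PF
  apply natDegree_sum_le_of_forall_le
  intro n _
  by_cases hn : d < ν n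
  · rw [h n hn, zero_mul, C_0, zero_mul]; simp
  · exact (natDegree_C_mul_X_pow_le _ _).trans (not_lt.1 hn)

theorem PF_eval (ν : E → ℕ) (w φ : E → ℂ) (z : ℂ) :
    (PF ν w φ).eval z = ∑ n, φ n * z ^ ν n * w n := by
  unfold PF
  rw [eval_finsetSum]
  refine Finset.sum_congr rfl fun n _ => ?_
  simp; ring

/-- The linear functional `φ ↦ ∑ φ n z ^ ν n w n`. -/
noncomputable def LF (ν : E → ℕ) (w : E → ℂ) (z : ℂ) : (E → ℂ) →ₗ[ℂ] ℂ where
  toFun φ := ∑ n, φ n * z ^ ν n * w n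
  map_add' φ ψ := by simp only [Pi.add_apply, add_mul, Finset.sum_add_distrib]
  map_smul' c φ := by
    simp only [Pi.smul_apply, smul_eq_mul, RingHom.id_apply, Finset.mul_sum]
    refine Finset.sum_congr rfl fun n _ => by ring

theorem LF_apply (ν : E → ℕ) (w : E → ℂ) (z : ℂ) (φ : E → ℂ) :
    LF ν w z φ = ∑ n, φ n * z ^ ν n * w n := rfl

theorem exists_top {ν : E → ℕ} (K : Submodule ℂ (E → ℂ)) (hK : K ≠ ⊥) :
    ∃ φ ∈ K, ∃ n, φ n ≠ 0 ∧ ∀ ψ ∈ K, ∀ n', ν n < ν n' → ψ n' = 0 := by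
  classical
  obtain ⟨φ0, hφ0, hne⟩ := Submodule.exists_mem_ne_zero_of_ne_bot hK
  have hne' : ∃ n, φ0 n ≠ 0 := by
    by_contra h
    push Not at h
    exact hne (funext h)
  obtain ⟨n0, hn0⟩ := hne'
  obtain ⟨n, hn, hmax⟩ := Finset.exists_max_image
    ((Finset.univ : Finset E).filter (fun n => ∃ φ ∈ K, φ n ≠ 0)) ν
    ⟨n0, Finset.mem_filter.2 ⟨Finset.mem_univ _, φ0, hφ0, hn0⟩⟩
  obtain ⟨-, φ, hφ, hφn⟩ := Finset.mem_filter.1 hn
  refine ⟨φ, hφ, n, hφn, fun ψ hψ n' hn' => ?_⟩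
  by_contra h
  exact absurd (hmax n' (Finset.mem_filter.2 ⟨Finset.mem_univ _, ψ, hψ, h⟩)) (by omega)

/-- One generic translate reduces the dimension by two. -/
theorem drop {J : Type*} {ν : E → ℕ} (hν : Function.Injective ν) (w : J → E → ℂ)
    (h1 : ∀ n, ∃ j, w j n ≠ 0)
    (h2 : ∀ n n', n ≠ n' → ∃ j j', w j n * w j' n' ≠ w j' n * w j n')
    (K : Submodule ℂ (E → ℂ)) :
    ∃ Q : ℂ[X], Q ≠ 0 ∧ ∀ z, Q.eval z ≠ 0 →
      finrank ℂ (K ⊓ (⨅ j, LinearMap.ker (LF ν (w j) z)) : Submodule ℂ (E → ℂ)) ≤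
        finrank ℂ K - 2 := by
  classical
  by_cases hK0 : K = ⊥
  · refine ⟨1, one_ne_zero, fun z _ => ?_⟩
    rw [hK0, bot_inf_eq, finrank_bot]
  obtain ⟨φ1, hφ1, n1, hn1, ht1⟩ := exists_top (ν := ν) K hK0
  -- the second space
  let K' : Submodule ℂ (E → ℂ) := K ⊓ LinearMap.ker (LinearMap.proj n1 : (E → ℂ) →ₗ[ℂ] ℂ)
  have hr := finrank_inf_ker K (LinearMap.proj n1 : (E → ℂ) →ₗ[ℂ] ℂ)
  have hle1 : finrank ℂ (K.map (LinearMap.proj n1 : (E → ℂ) →ₗ[ℂ] ℂ)) ≤ 1 := by
    have := Submodule.finrank_le (K.map (LinearMap.proj n1 : (E → ℂ) →ₗ[ℂ] ℂ))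
    simpa using this
  by_cases hK' : K' = ⊥
  · -- dimension one
    obtain ⟨j, hj⟩ := h1 n1
    refine ⟨PF ν (w j) φ1, ?_, fun z hz => ?_⟩
    · intro h0
      have := PF_coeff hν (w j) φ1 n1
      rw [h0, coeff_zero] at this
      exact (mul_ne_zero hn1 hj) this.symm
    · have hbot : (K ⊓ (⨅ j, LinearMap.ker (LF ν (w j) z)) : Submodule ℂ (E → ℂ)) = ⊥ := by
        rw [eq_bot_iff]
        intro ψ hψ
        rw [Submodule.mem_inf] at hψ
        have h3 : ψ - (ψ n1 / φ1 n1) • φ1 ∈ K' := by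
          refine Submodule.mem_inf.2 ⟨K.sub_mem hψ.1 (K.smul_mem _ hφ1), ?_⟩
          rw [LinearMap.mem_ker]
          simp [hn1]
        rw [hK', Submodule.mem_bot, sub_eq_zero] at h3
        have h4 : LF ν (w j) z ψ = 0 := by
          have := (Submodule.mem_iInf _).1 hψ.2 j
          exact this
        rw [h3, map_smul, LF_apply, ← PF_eval, smul_eq_mul] at h4
        rcases mul_eq_zero.1 h4 with h5 | h5
        · rw [h3, h5, zero_smul]; exact Submodule.zero_mem _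
        · exact absurd h5 hz
      rw [hbot, finrank_bot]
      omega
  · obtain ⟨φ2, hφ2, n2, hn2, ht2⟩ := exists_top (ν := ν) K' hK'
    have hφ2' := Submodule.mem_inf.1 hφ2
    have hφ2n1 : φ2 n1 = 0 := hφ2'.2
    have hne : n1 ≠ n2 := by
      rintro rfl
      exact hn2 hφ2n1
    have hlt : ν n2 < ν n1 := by
      by_contra h
      have h3 : ν n1 < ν n2 := lt_of_le_of_ne (not_lt.1 h) (fun h4 => hne (hν h4))
      exact hn2 (ht1 φ2 hφ2'.1 n2 h3)
    obtain ⟨j, j', hjj⟩ := h2 n1 n2 hne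
    set Q : ℂ[X] := PF ν (w j) φ1 * PF ν (w j') φ2 - PF ν (w j') φ1 * PF ν (w j) φ2 with hQ
    refine ⟨Q, ?_, fun z hz => ?_⟩
    · intro h0
      have hd1 : ∀ i, (PF ν (w i) φ1).natDegree ≤ ν n1 :=
        fun i => PF_natDegree _ _ _ (fun n hn => ht1 φ1 hφ1 n hn)
      have hd2 : ∀ i, (PF ν (w i) φ2).natDegree ≤ ν n2 :=
        fun i => PF_natDegree _ _ _ (fun n hn => ht2 φ2 hφ2 n hn)
      have hc : Q.coeff (ν n1 + ν n2) =
          φ1 n1 * φ2 n2 * (w j n1 * w j' n2 - w j' n1 * w j n2) := by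
        rw [hQ, coeff_sub, coeff_mul_add_eq_of_natDegree_le (hd1 j) (hd2 j'),
          coeff_mul_add_eq_of_natDegree_le (hd1 j') (hd2 j), PF_coeff hν, PF_coeff hν, PF_coeff hν,
          PF_coeff hν]
        ring
      rw [h0, coeff_zero] at hc
      exact (mul_ne_zero (mul_ne_zero hn1 hn2) (sub_ne_zero.2 hjj)) hc.symm
    · let T : (E → ℂ) →ₗ[ℂ] (Fin 2 → ℂ) :=
        LinearMap.pi ![LF ν (w j) z, LF ν (w j') z]
      have hT0 : ∀ ψ, T ψ 0 = (PF ν (w j) ψ).eval z := fun ψ => by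
        rw [PF_eval]; rfl
      have hT1 : ∀ ψ, T ψ 1 = (PF ν (w j') ψ).eval z := fun ψ => by
        rw [PF_eval]; rfl
      have hQz : Q.eval z = T φ1 0 * T φ2 1 - T φ1 1 * T φ2 0 := by
        rw [hT0, hT1, hT0, hT1, hQ, eval_sub, eval_mul, eval_mul]
      have htop : K.map T = ⊤ := by
        rw [eq_top_iff]
        intro x _
        rw [Submodule.mem_map]
        refine ⟨((x 0 * T φ2 1 - x 1 * T φ2 0) / Q.eval z) • φ1 +
          ((x 1 * T φ1 0 - x 0 * T φ1 1) / Q.eval z) • φ2,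
          K.add_mem (K.smul_mem _ hφ1) (K.smul_mem _ hφ2'.1), ?_⟩
        rw [map_add, map_smul, map_smul]
        ext i
        fin_cases i
        · simp only [Fin.zero_eta, Pi.add_apply, Pi.smul_apply, smul_eq_mul]
          field_simp
          rw [hQz]; ring
        · simp only [Fin.mk_one, Pi.add_apply, Pi.smul_apply, smul_eq_mul]
          field_simp
          rw [hQz]; ring
      have h3 := finrank_inf_ker K T
      rw [htop, finrank_top, finrank_fin_fun] at h3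
      have h4 : (K ⊓ (⨅ j, LinearMap.ker (LF ν (w j) z)) : Submodule ℂ (E → ℂ)) ≤
          K ⊓ LinearMap.ker T := by
        apply inf_le_inf_left
        intro ψ hψ
        rw [Submodule.mem_iInf] at hψ
        rw [LinearMap.mem_ker]
        ext i
        fin_cases i
        · exact hψ j
        · exact hψ j'
      have h5 := Submodule.finrank_mono h4
      omega

/-- Enough generic translates span. -/
theorem greedy {Xs : Type*} [Fintype Xs] {E : Xs → Type*} [∀ χ, Fintype (E χ)] {J : Type*}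
    {ν : ∀ χ, E χ → ℕ} (hν : ∀ χ, Function.Injective (ν χ)) (w : ∀ χ, J → E χ → ℂ)
    (h1 : ∀ χ n, ∃ j, w χ j n ≠ 0)
    (h2 : ∀ χ n n', n ≠ n' → ∃ j j', w χ j n * w χ j' n' ≠ w χ j' n * w χ j n')
    (s : ℕ) : ∃ z : Fin s → ℂ, (∀ i, z i ≠ 0) ∧ ∀ χ,
      finrank ℂ (⨅ i, ⨅ j, LinearMap.ker (LF (ν χ) (w χ j) (z i)) : Submodule ℂ (E χ → ℂ)) ≤
        Fintype.card (E χ) - 2 * s := by
  classical
  induction s with
  | zero =>
    refine ⟨Fin.elim0, fun i => i.elim0, fun χ => ?_⟩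
    rw [iInf_of_empty, finrank_top, finrank_fintype_fun_eq_card]
    omega
  | succ s ih =>
    obtain ⟨z, hz0, hz⟩ := ih
    have hd := fun χ => drop (hν χ) (w χ) (h1 χ) (h2 χ)
      (⨅ i, ⨅ j, LinearMap.ker (LF (ν χ) (w χ j) (z i)))
    choose Q hQ0 hQ using hd
    obtain ⟨t, ht⟩ : ∃ t : ℂ, (X * ∏ χ, Q χ).eval t ≠ 0 := by
      by_contra hcon
      push Not at hcon
      have : (X * ∏ χ, Q χ : ℂ[X]) = 0 := Polynomial.funext (fun x => by rw [hcon x, eval_zero])
      rcases mul_eq_zero.1 this with h | h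
      · exact X_ne_zero h
      · obtain ⟨χ, -, hχ⟩ := Finset.prod_eq_zero_iff.1 h
        exact hQ0 χ hχ
    rw [eval_mul, eval_X, eval_prod] at ht
    have ht0 := left_ne_zero_of_mul ht
    have htQ : ∀ χ, (Q χ).eval t ≠ 0 := fun χ =>
      Finset.prod_ne_zero_iff.1 (right_ne_zero_of_mul ht) χ (Finset.mem_univ _)
    refine ⟨Fin.snoc z t, fun i => ?_, fun χ => ?_⟩
    · refine Fin.lastCases ?_ (fun i => ?_) i
      · rw [Fin.snoc_last]; exact ht0
      · rw [Fin.snoc_castSucc]; exact hz0 i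
    · have h3 := hQ χ t (htQ χ)
      have h4 := hz χ
      have h5 : (⨅ i, ⨅ j, LinearMap.ker (LF (ν χ) (w χ j) ((Fin.snoc z t : Fin (s + 1) → ℂ) i)) :
          Submodule ℂ (E χ → ℂ)) ≤
          (⨅ i, ⨅ j, LinearMap.ker (LF (ν χ) (w χ j) (z i))) ⊓
            (⨅ j, LinearMap.ker (LF (ν χ) (w χ j) t)) := by
        apply le_inf
        · apply le_iInf
          intro i
          refine (iInf_le _ i.castSucc).trans ?_
          rw [Fin.snoc_castSucc]
        · refine (iInf_le _ (Fin.last s)).trans ?_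
          rw [Fin.snoc_last]
      have h6 := Submodule.finrank_mono h5
      omega

end Pool.Agent.Helper74.SD
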