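import Pool.Agent.Helper74.SD.Cyc
import Pool.Agent.Helper74.SD.Greedy

/-!
The core theorem: sums of determinants from lattice point counts.
-/

namespace Pool.Agent.Helper74.SD

open MvPolynomial Finset

variable {p : ℕ} [Fact p.Prime]

theorem ee_orth {ζ : ℂ} (hζ : IsPrimitiveRoot ζ p) (x : ZMod p) :
    ∑ i : ZMod p, ee ζ (x * i) = if x = 0 then (p : ℂ) else 0 := by
  split_ifs with hx
  · subst hx
    simp [ee_zero]
  · have h1 : ∑ i : ZMod p, ee ζ (x * i) = ∑ i : ZMod p, ee ζ i :=
      Fintype.sum_equiv (Equiv.mulLeft₀ x hx) _ _ (fun i => rfl)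
    rw [h1]
    have h2 : ∑ i : ZMod p, ee ζ i = ∑ i ∈ range p, ζ ^ i := by
      unfold ee
      refine Finset.sum_bij (fun i _ => i.val) ?_ ?_ ?_ ?_
      · intro i _; exact mem_range.2 (ZMod.val_lt i)
      · intro i _ i' _ h; exact ZMod.val_injective p h
      · intro l hl; exact ⟨(l : ZMod p), mem_univ _, ZMod.val_cast_of_lt (mem_range.1 hl)⟩
      · intro i _; rfl
    rw [h2]
    exact hζ.geom_sum_eq_zero (Fact.out : p.Prime).one_lt

/-- exponent weights -/
def nu (p : ℕ) (m : Fin 4 →₀ ℕ) : ℕ := ∑ j : Fin 4, (p + 1) ^ (j : ℕ) * m j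

omit [Fact p.Prime] in
theorem nu_inj {m m' : Fin 4 →₀ ℕ} (hm : m ∈ Dl p) (hm' : m' ∈ Dl p) (h : nu p m = nu p m') :
    m = m' := by
  rw [mem_Dl] at hm hm'
  unfold nu at h
  rw [Fin.sum_univ_four, Fin.sum_univ_four] at h
  have key : ∀ x x' y y' : ℕ, x < p + 1 → x' < p + 1 → x + (p + 1) * y = x' + (p + 1) * y' →
      x = x' ∧ y = y' := by
    intro x x' y y' hx hx' hxy
    have h1 : (x + (p + 1) * y) % (p + 1) = (x' + (p + 1) * y') % (p + 1) := by rw [hxy]
    rw [Nat.add_mul_mod_self_left, Nat.add_mul_mod_self_left, Nat.mod_eq_of_lt hx,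
      Nat.mod_eq_of_lt hx'] at h1
    subst h1
    exact ⟨rfl, Nat.eq_of_mul_eq_mul_left (Nat.succ_pos p) (Nat.add_left_cancel hxy)⟩
  have e1 : m 0 + (p + 1) * (m 1 + (p + 1) * (m 2 + (p + 1) * m 3)) =
      m' 0 + (p + 1) * (m' 1 + (p + 1) * (m' 2 + (p + 1) * m' 3)) := by
    have h0 : ∀ x : Fin 4 →₀ ℕ, x 0 + (p + 1) * (x 1 + (p + 1) * (x 2 + (p + 1) * x 3)) =
        (p + 1) ^ ((0 : Fin 4) : ℕ) * x 0 + (p + 1) ^ ((1 : Fin 4) : ℕ) * x 1 +
          (p + 1) ^ ((2 : Fin 4) : ℕ) * x 2 + (p + 1) ^ ((3 : Fin 4) : ℕ) * x 3 := by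
      intro x
      simp only [Fin.val_zero, Fin.val_one, Fin.val_two]
      have : ((3 : Fin 4) : ℕ) = 3 := rfl
      rw [this]
      ring
    rw [h0, h0, h]
  obtain ⟨h1, e2⟩ := key _ _ _ _ (by omega) (by omega) e1
  obtain ⟨h2, e3⟩ := key _ _ _ _ (by omega) (by omega) e2
  obtain ⟨h3, h4⟩ := key _ _ _ _ (by omega) (by omega) e3
  ext j
  fin_cases j
  · exact h1
  · exact h2
  · exact h3
  · exact h4

/-- The cosets in the regions. -/
noncomputable def EE (r : ℕ) (a b : Fin 4 → ZMod p) (c : Fin 4) (α β : ZMod p) :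
    Finset (Fin 4 →₀ ℕ) :=
  (Dl p).filter fun m => wt a m = α ∧ wt b m = β ∧ ∀ c' < c, m c' < r

theorem span_type (r : ℕ) (a b : Fin 4 → ZMod p) (c : Fin 4) (s : ℕ)
    (hE : ∀ α β, (EE r a b c α β).card ≤ 2 * s) :
    ∃ z : Fin s → ℂ, (∀ i, z i ≠ 0) ∧ ∀ α β, ∀ φ : (Fin 4 →₀ ℕ) → ℂ,
      (∀ i j, ∑ m ∈ EE r a b c α β, φ m * z i ^ nu p m * wj (zC p) a b j m = 0) →
      ∀ m ∈ EE r a b c α β, φ m = 0 := by
  classical
  have hD : ∀ χ : ZMod p × ZMod p, ∀ m ∈ EE r a b c χ.1 χ.2, m ∈ Dl p :=
    fun χ m hm => (mem_filter.1 hm).1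
  have hS : ∀ m ∈ Dl p, ∑ j, m j = p := by
    intro m hm
    rw [Fin.sum_univ_four]; exact mem_Dl.1 hm
  obtain ⟨z, hz0, hz⟩ := greedy (Xs := ZMod p × ZMod p)
    (E := fun χ => {m // m ∈ EE r a b c χ.1 χ.2}) (J := Fin 4)
    (ν := fun χ m => nu p m.1)
    (fun χ m m' h => Subtype.ext (nu_inj (hD χ _ m.2) (hD χ _ m'.2) h))
    (fun χ j m => wj (zC p) a b j m.1)
    (fun χ m => wj_M1 a b m.1 (hS _ (hD χ _ m.2)))
    (fun χ m m' hne => wj_M2 a b m.1 m'.1 (hS _ (hD χ _ m.2)) (hS _ (hD χ _ m'.2))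
      (by rw [(mem_filter.1 m.2).2.1, (mem_filter.1 m'.2).2.1])
      (by rw [(mem_filter.1 m.2).2.2.1, (mem_filter.1 m'.2).2.2.1])
      (fun h => hne (Subtype.ext h)))
    s
  refine ⟨z, hz0, fun α β φ hφ m hm => ?_⟩
  have h1 := hz (α, β)
  rw [Fintype.card_coe] at h1
  have h2 := hE α β
  have h3 : Module.finrank ℂ (⨅ i, ⨅ j, LinearMap.ker (LF (fun m : {m // m ∈ EE r a b c α β} =>
      nu p m.1) (fun m => wj (zC p) a b j m.1) (z i)) :
      Submodule ℂ ({m // m ∈ EE r a b c α β} → ℂ)) = 0 := by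
    have h4 : (EE r a b c α β).card - 2 * s = 0 := by omega
    rw [h4] at h1
    exact Nat.le_zero.1 h1
  rw [Submodule.finrank_eq_zero] at h3
  have h4 : (fun m : {m // m ∈ EE r a b c α β} => φ m.1) ∈
      (⨅ i, ⨅ j, LinearMap.ker (LF (fun m : {m // m ∈ EE r a b c α β} =>
      nu p m.1) (fun m => wj (zC p) a b j m.1) (z i)) :
      Submodule ℂ ({m // m ∈ EE r a b c α β} → ℂ)) := by
    rw [Submodule.mem_iInf]
    intro i
    rw [Submodule.mem_iInf]
    intro j
    rw [LinearMap.mem_ker, LF_apply, ← hφ i j, ← Finset.sum_coe_sort (EE r a b c α β)]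
  rw [h3, Submodule.mem_bot] at h4
  exact congrFun h4 ⟨m, hm⟩

/-- adjugate of a block diagonal matrix -/
theorem adjugate_block {κ κ' B : Type*} [Fintype κ] [DecidableEq κ] [Fintype κ'] [DecidableEq κ']
    [CommRing B] (A : Matrix κ κ B) (D : Matrix κ' κ' B) (i i' : κ) :
    (Matrix.fromBlocks A 0 0 D).adjugate (Sum.inl i) (Sum.inl i') = A.adjugate i i' * D.det := by
  rw [Matrix.adjugate_apply, Matrix.adjugate_apply]
  have h1 : (Matrix.fromBlocks A 0 0 D).updateRow (Sum.inl i') (Pi.single (Sum.inl i) 1) =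
      Matrix.fromBlocks (A.updateRow i' (Pi.single i 1)) 0 0 D := by
    ext1 x y
    rcases x with x | x <;> rcases y with y | y <;>
      simp [Matrix.updateRow_apply, Pi.single_apply]
  rw [h1, Matrix.det_fromBlocks_zero₂₁]

/-- The coefficients of the block matrix. -/
noncomputable def cc (p : ℕ) [Fact p.Prime] (r : ℕ) (a b : Fin 4 → ZMod p) (c : Fin 4) (z : ℂ) :
    (ZMod p ⊕ Fin r) → (ZMod p ⊕ Fin r) → Fin 4 → ℂ
  | Sum.inl x, Sum.inl y, j => hc (zC p) a b x y j * z ^ ((p + 1) ^ (j : ℕ))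
  | Sum.inr x, Sum.inr y, j => if x = y ∧ j = c then 1 else 0
  | Sum.inl _, Sum.inr _, _ => 0
  | Sum.inr _, Sum.inl _, _ => 0

theorem LM_cc (r : ℕ) (a b : Fin 4 → ZMod p) (c : Fin 4) (z : ℂ) :
    LM (cc p r a b c z) = Matrix.fromBlocks
      (LM (fun x y j => hc (zC p) a b x y j * z ^ ((p + 1) ^ (j : ℕ)))) 0 0
      (Matrix.diagonal fun _ => X c) := by
  ext1 x y
  rcases x with x | x <;> rcases y with y | y
  · rfl
  · simp [LM, cc]
  · simp [LM, cc]
  · simp only [LM, Matrix.of_apply, cc, Matrix.fromBlocks_apply₂₂, Matrix.diagonal_apply]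
    by_cases h : x = y
    · rw [if_pos h, Finset.sum_eq_single c]
      · rw [if_pos ⟨h, rfl⟩, C_1, one_mul]
      · intro j _ hj
        rw [if_neg (fun h' => hj h'.2), C_0, zero_mul]
      · simp
    · rw [if_neg h]
      apply Finset.sum_eq_zero
      intro j _
      rw [if_neg (fun h' => h h'.1), C_0, zero_mul]

theorem adj_cc (r : ℕ) (a b : Fin 4 → ZMod p) (c : Fin 4) (z : ℂ) (i i' : ZMod p) :
    (LM (cc p r a b c z)).adjugate (Sum.inl i) (Sum.inl i') =
      scl (fun j => z ^ ((p + 1) ^ (j : ℕ))) ((HM (zC p) a b).adjugate i i') * X c ^ r := by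
  rw [LM_cc, adjugate_block, Matrix.det_diagonal, Finset.prod_const, Finset.card_univ,
    Fintype.card_fin, adjugate_scl (fun j : Fin 4 => z ^ ((p + 1) ^ (j : ℕ))) (hc (zC p) a b)]
  rfl

omit [Fact p.Prime] in
theorem tpow_nu (z : ℂ) (m : Fin 4 →₀ ℕ) :
    tpow (fun j => z ^ ((p + 1) ^ (j : ℕ))) m = z ^ nu p m := by
  unfold tpow nu
  rw [← Finset.prod_pow_eq_pow_sum]
  refine Finset.prod_congr rfl fun j _ => ?_
  rw [pow_mul]

/-- The conditions given by one matrix. -/
theorem cond (r : ℕ) (a b : Fin 4 → ZMod p) (c : Fin 4) (z : ℂ)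
    (φ : (Fin 4 →₀ ℕ) → ℂ)
    (h : ∀ x y j, ∑ n ∈ Dl (p + r), φ n * coeff n (X j * (LM (cc p r a b c z)).adjugate x y) = 0)
    (α β : ZMod p) (j : Fin 4) :
    ∑ m ∈ (Dl p).filter (fun m => wt a m = α ∧ wt b m = β),
      φ (m + Finsupp.single c r) * z ^ nu p m * wj (zC p) a b j m = 0 := by
  classical
  have hζ := zC_prim (p := p)
  have hζ1 := hζ.pow_eq_one
  set A := (HM (zC p) a b).adjugate with hA
  set t : Fin 4 → ℂ := fun j => z ^ ((p + 1) ^ (j : ℕ)) with ht
  -- step 1: reduction to degree `p`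
  have h1 : ∀ i i' : ZMod p, ∑ m ∈ Dl p, φ (m + Finsupp.single c r) * z ^ nu p m *
      coeff m (X j * A i i') = 0 := by
    intro i i'
    have h2 := h (Sum.inl i) (Sum.inl i') j
    rw [adj_cc] at h2
    have h3 : ∀ n, coeff n (X j * (scl t (A i i') * X c ^ r)) =
        if Finsupp.single c r ≤ n then coeff (n - Finsupp.single c r) (X j * scl t (A i i'))
          else 0 := by
      intro n
      rw [← mul_assoc, X_pow_eq_monomial, coeff_mul_monomial', mul_one]
    have h4 : ∑ n ∈ Dl (p + r), φ n * coeff n (X j * (scl t (A i i') * X c ^ r)) =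
        ∑ m ∈ Dl p, φ (m + Finsupp.single c r) * coeff m (X j * scl t (A i i')) := by
      rw [← Finset.sum_subset (s₁ := (Dl p).image (fun m => m + Finsupp.single c r))
        (s₂ := Dl (p + r))]
      · rw [Finset.sum_image]
        · refine Finset.sum_congr rfl fun m _ => ?_
          rw [h3, if_pos le_add_self, add_tsub_cancel_right]
        · intro m _ m' _ hmm
          exact add_right_cancel hmm
      · intro n hn
        obtain ⟨m, hm, rfl⟩ := Finset.mem_image.1 hn
        rw [mem_Dl_degree] at hm ⊢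
        rw [map_add, hm, Finsupp.degree_single]
      · intro n hn hn'
        rw [h3, if_neg, mul_zero]
        intro hle
        apply hn'
        refine Finset.mem_image.2 ⟨n - Finsupp.single c r, ?_, tsub_add_cancel_of_le hle⟩
        rw [mem_Dl_degree] at hn ⊢
        have h5 : (n - Finsupp.single c r + Finsupp.single c r).degree = p + r := by
          rw [tsub_add_cancel_of_le hle, hn]
        rw [map_add, Finsupp.degree_single] at h5
        omega
    rw [h4] at h2
    have h5 : ∀ m, t j * coeff m (X j * scl t (A i i')) = z ^ nu p m * coeff m (X j * A i i') := by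
      intro m
      rw [← tpow_nu, ← coeff_scl, map_mul, scl_X, mul_assoc, coeff_C_mul]
    have h6 : t j * ∑ m ∈ Dl p, φ (m + Finsupp.single c r) * coeff m (X j * scl t (A i i')) =
        ∑ m ∈ Dl p, φ (m + Finsupp.single c r) * z ^ nu p m * coeff m (X j * A i i') := by
      rw [Finset.mul_sum]
      refine Finset.sum_congr rfl fun m _ => ?_
      rw [mul_left_comm, h5]; ring
    rw [← h6, h2, mul_zero]
  -- step 2: Fourier inversion
  have h2 : ∑ i : ZMod p, ee (zC p) (-((β - b j) * i)) *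
      ∑ m ∈ Dl p, φ (m + Finsupp.single c r) * z ^ nu p m *
        coeff m (X j * A i (i + (α - a j))) = 0 := by
    apply Finset.sum_eq_zero
    intro i _
    rw [h1, mul_zero]
  have h3 : ∑ i : ZMod p, ee (zC p) (-((β - b j) * i)) *
      ∑ m ∈ Dl p, φ (m + Finsupp.single c r) * z ^ nu p m *
        coeff m (X j * A i (i + (α - a j))) =
      ∑ m ∈ (Dl p).filter (fun m => wt a m = α ∧ wt b m = β),
        (p : ℂ) * (φ (m + Finsupp.single c r) * z ^ nu p m * wj (zC p) a b j m) := by
    simp_rw [Finset.mul_sum]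
    rw [Finset.sum_comm, Finset.sum_filter]
    refine Finset.sum_congr rfl fun m _ => ?_
    by_cases hα : wt a m = α
    · have h4 : ∀ i : ZMod p, ee (zC p) (-((β - b j) * i)) *
          (φ (m + Finsupp.single c r) * z ^ nu p m * coeff m (X j * A i (i + (α - a j)))) =
          ee (zC p) ((wt b m - β) * i) *
            (φ (m + Finsupp.single c r) * z ^ nu p m * wj (zC p) a b j m) := by
        intro i
        rw [hA, HM_coeff hζ, if_pos (by rw [hα]; ring)]
        have h5 : ee (zC p) ((wt b m - β) * i) =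
            ee (zC p) (-((β - b j) * i)) * ee (zC p) ((wt b m - b j) * i) := by
          rw [← ee_add hζ1]; congr 1; ring
        rw [h5]; ring
      rw [Finset.sum_congr rfl (fun i _ => h4 i), ← Finset.sum_mul, ee_orth hζ]
      by_cases hβ : wt b m = β
      · rw [if_pos (by rw [hβ, sub_self]), if_pos ⟨hα, hβ⟩]
      · rw [if_neg (fun h' => hβ (sub_eq_zero.1 h')), if_neg (fun h' => hβ h'.2), zero_mul]
    · rw [if_neg (fun h' => hα h'.1)]
      apply Finset.sum_eq_zero
      intro i _
      rw [hA, HM_coeff hζ, if_neg, mul_zero, mul_zero]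
      intro h5
      apply hα
      have h6 : α - a j = wt a m - a j := by rw [← h5]; ring
      exact (sub_left_inj.1 h6).symm
  rw [h3, ← Finset.mul_sum] at h2
  exact (mul_eq_zero.1 h2).resolve_left (Nat.cast_ne_zero.2 (Fact.out : p.Prime).ne_zero)

/-- **Core theorem.** -/
theorem core (r : ℕ) (a b : Fin 4 → ZMod p) (s : Fin 4 → ℕ) (hr : 3 * r ≤ p + 3)
    (hE : ∀ c α β, (EE r a b c α β).card ≤ 2 * s c) :
    GeneralIsSumOfDets (p + r) (∑ c, s c) := by
  classical
  choose z hz0 hz using fun c => span_type r a b c (s c) (hE c)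
  apply general_of_spans (I := Σ c : Fin 4, Fin (s c)) (κ := ZMod p ⊕ Fin r)
    (c := fun i => cc p r a b i.1 (z i.1 i.2))
  · simp
  · rw [Fintype.card_sum, ZMod.card, Fintype.card_fin]
  · have := (Fact.out : p.Prime).one_le; omega
  · intro φ hφ
    -- vanishing on the regions
    have key : ∀ c : Fin 4, ∀ m ∈ Dl p, φ (m + Finsupp.single c r) = 0 := by
      intro c
      induction c using WellFoundedLT.induction with
      | _ c ih =>
        -- terms in earlier regions vanish
        have hearly : ∀ m ∈ Dl p, (∃ c' < c, r ≤ m c') → φ (m + Finsupp.single c r) = 0 := by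
          rintro m hm ⟨c', hc', hle⟩
          have h1 : m + Finsupp.single c r =
              (m + Finsupp.single c r - Finsupp.single c' r) + Finsupp.single c' r := by
            rw [tsub_add_cancel_of_le]
            rw [Finsupp.single_le_iff]
            simp only [Finsupp.add_apply]
            omega
          rw [h1]
          apply ih c' hc'
          rw [mem_Dl_degree] at hm ⊢
          have h2 := congrArg Finsupp.degree h1
          rw [map_add, map_add, Finsupp.degree_single, Finsupp.degree_single, hm] at h2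
          omega
        have hcond : ∀ α β, ∀ i j, ∑ m ∈ EE r a b c α β,
            φ (m + Finsupp.single c r) * z c i ^ nu p m * wj (zC p) a b j m = 0 := by
          intro α β i j
          rw [← cond r a b c (z c i) φ (fun x y j => hφ ⟨c, i⟩ x y j) α β j]
          apply Finset.sum_subset
          · intro m hm
            rw [EE, mem_filter] at hm
            rw [mem_filter]
            exact ⟨hm.1, hm.2.1, hm.2.2.1⟩
          · intro m hm hm'
            rw [mem_filter] at hm
            have h3 : ∃ c' < c, r ≤ m c' := by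
              by_contra hcon
              push Not at hcon
              apply hm'
              rw [EE, mem_filter]
              exact ⟨hm.1, hm.2.1, hm.2.2, hcon⟩
            rw [hearly m hm.1 h3, zero_mul, zero_mul]
        intro m hm
        by_cases h3 : ∃ c' < c, r ≤ m c'
        · exact hearly m hm h3
        · push Not at h3
          exact hz c (wt a m) (wt b m) (fun m => φ (m + Finsupp.single c r))
            (fun i j => hcond _ _ i j) m (by
              rw [EE, mem_filter]
              exact ⟨hm, rfl, rfl, h3⟩)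
    intro n hn
    have h4 : ∃ c, r ≤ n c := by
      by_contra hcon
      push Not at hcon
      rw [mem_Dl] at hn
      have := hcon 0; have := hcon 1; have := hcon 2; have := hcon 3
      omega
    obtain ⟨c, hc⟩ := h4
    have h1 : n = (n - Finsupp.single c r) + Finsupp.single c r := by
      rw [tsub_add_cancel_of_le]
      rw [Finsupp.single_le_iff]
      exact hc
    rw [h1]
    apply key c
    rw [mem_Dl_degree] at hn ⊢
    have h2 := congrArg Finsupp.degree h1
    rw [map_add, Finsupp.degree_single, hn] at h2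
    omega

end Pool.Agent.Helper74.SD
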