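import Pool.Agent.Helper74.SD.Four

/-!
Lattice point counts: a lattice of index `p ^ 2` whose cosets meet the simplex of size `p` in
at most `p / 6 + 2 (1 + log p) ^ 2 + 6` points.
-/

namespace Pool.Agent.Helper74.SD

open Finset

variable {p : ℕ} [Fact p.Prime]

/-- first weights -/
def av (x : ZMod p) : Fin 4 → ZMod p := ![0, 1, 0, x]
/-- second weights -/
def bv (y : ZMod p) : Fin 4 → ZMod p := ![0, 0, 1, y]
/-- slopes -/
def cf (x y : ZMod p) : Fin 4 → ZMod p := ![x + y - 1, -x, -y, 1]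
/-- constants -/
def ef (α β : ZMod p) : Fin 4 → ZMod p := ![-(α + β), α, β, 0]

/-- The coset. -/
noncomputable def NN (x y α β : ZMod p) : Finset (Fin 4 →₀ ℕ) :=
  (Dl p).filter fun n => wt (av x) n = α ∧ wt (bv y) n = β

theorem res {x y α β : ZMod p} {n : Fin 4 →₀ ℕ} (hn : n ∈ NN x y α β) (j : Fin 4) :
    (n j : ZMod p) = cf x y j * (n 3 : ZMod p) + ef α β j := by
  rw [NN, mem_filter, mem_Dl] at hn
  obtain ⟨h0, h1, h2⟩ := hn
  unfold wt at h1 h2
  rw [Fin.sum_univ_four] at h1 h2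
  simp only [av, bv, Matrix.cons_val_zero, Matrix.cons_val_one, Matrix.cons_val] at h1 h2
  have h3 : (n 0 : ZMod p) + n 1 + n 2 + n 3 = 0 := by
    have := congrArg (fun m : ℕ => (m : ZMod p)) h0
    push_cast at this
    rw [this]; simp
  fin_cases j
  · simp only [cf, ef, Fin.zero_eta, Matrix.cons_val_zero]
    linear_combination h3 - h1 - h2
  · simp only [cf, ef, Fin.mk_one, Matrix.cons_val]
    linear_combination h1
  · simp only [cf, ef, Fin.reduceFinMk, Matrix.cons_val]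
    linear_combination h2
  · simp only [cf, ef, Fin.reduceFinMk, Matrix.cons_val]
    ring

/-- The sum of the residues. -/
def Sv (x y α β t : ZMod p) : ℕ := ∑ j, (cf x y j * t + ef α β j).val

theorem Sv_dvd (x y α β t : ZMod p) : p ∣ Sv x y α β t := by
  rw [← ZMod.natCast_eq_zero_iff]
  unfold Sv
  push_cast
  simp only [ZMod.natCast_val, ZMod.cast_id', id]
  rw [Fin.sum_univ_four]
  simp only [cf, ef, Matrix.cons_val_zero, Matrix.cons_val_one, Matrix.cons_val]
  ring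

/-- The quadratic polynomial in the sum of the residues. -/
noncomputable def Qf (x y α β t : ZMod p) : ℝ :=
  1 / 2 * ((Sv x y α β t : ℝ) / p - 2) * ((Sv x y α β t : ℝ) / p - 3)

theorem Qf_ge (x y α β t : ZMod p) : (if Sv x y α β t = p then (1 : ℝ) else 0) ≤ Qf x y α β t := by
  have hp : (p : ℝ) ≠ 0 := Nat.cast_ne_zero.2 (Fact.out : p.Prime).ne_zero
  obtain ⟨q, hq⟩ := Sv_dvd x y α β t
  have h1 : (Sv x y α β t : ℝ) / p = q := by
    rw [hq]; push_cast; field_simp
  unfold Qf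
  rw [h1]
  split_ifs with h
  · have h2 : q = 1 := by
      rw [hq] at h
      exact Nat.eq_of_mul_eq_mul_left (Fact.out : p.Prime).pos (by rw [h, mul_one])
    rw [h2]; norm_num
  · rcases Nat.lt_or_ge q 3 with h3 | h3
    · interval_cases q <;> norm_num
    · have h4 : (3 : ℝ) ≤ q := by exact_mod_cast h3
      nlinarith

/-- The points which are not vertices. -/
theorem card_nonvertex (x y α β : ZMod p) :
    ((((NN x y α β).filter fun n => ∀ j, n j < p).card : ℕ) : ℝ) ≤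
      ∑ t : ZMod p, (if Sv x y α β t = p then (1 : ℝ) else 0) := by
  classical
  rw [Finset.sum_boole]
  norm_cast
  apply Finset.card_le_card_of_injOn (fun n => ((n 3 : ℕ) : ZMod p))
  · intro n hn
    simp only [Finset.coe_filter, Set.mem_ofPred_eq] at hn
    simp only [Finset.coe_filter, Set.mem_ofPred_eq, Finset.mem_univ, true_and]
    unfold Sv
    have h1 : ∀ j, (cf x y j * ((n 3 : ℕ) : ZMod p) + ef α β j).val = n j := by
      intro j
      rw [← res hn.1 j, ZMod.val_cast_of_lt (hn.2 j)]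
    rw [Finset.sum_congr rfl (fun j _ => h1 j), Fin.sum_univ_four]
    exact mem_Dl.1 (mem_filter.1 hn.1).1
  · intro n hn n' hn' h
    simp only [Finset.coe_filter, Set.mem_ofPred_eq] at hn hn'
    beta_reduce at h
    ext j
    have h1 := res hn.1 j
    have h2 := res hn'.1 j
    rw [h, ← h2] at h1
    have h3 := (ZMod.natCast_eq_natCast_iff _ _ _).1 h1
    exact Nat.ModEq.eq_of_lt_of_lt h3 (hn.2 j) (hn'.2 j)

theorem card_vertex (x y α β : ZMod p) :
    ((NN x y α β).filter fun n => ¬ ∀ j, n j < p).card ≤ 4 := by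
  classical
  calc ((NN x y α β).filter fun n => ¬ ∀ j, n j < p).card
      ≤ ((Finset.univ : Finset (Fin 4)).image (fun j => (Finsupp.single j p : Fin 4 →₀ ℕ))).card := by
        apply Finset.card_le_card
        intro n hn
        rw [mem_filter] at hn
        obtain ⟨h1, h2⟩ := hn
        push Not at h2
        obtain ⟨j, hj⟩ := h2
        have h3 := mem_Dl.1 (mem_filter.1 h1).1
        rw [mem_image]
        refine ⟨j, mem_univ _, ?_⟩
        ext i
        fin_cases j <;> fin_cases i <;> simp at hj ⊢ <;> omega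
    _ ≤ 4 := by
        refine (Finset.card_image_le).trans ?_
        simp

theorem card_NN_le (x y α β : ZMod p) :
    ((NN x y α β).card : ℝ) ≤ ∑ t : ZMod p, Qf x y α β t + 4 := by
  classical
  have h1 := Finset.card_filter_add_card_filter_not (s := NN x y α β) (fun n => ∀ j, n j < p)
  rw [← h1]
  push_cast
  have h2 := card_nonvertex x y α β
  have h3 : ((((NN x y α β).filter fun n => ¬ ∀ j, n j < p).card : ℕ) : ℝ) ≤ 4 := by
    exact_mod_cast card_vertex x y α β
  have h4 : ∑ t : ZMod p, (if Sv x y α β t = p then (1 : ℝ) else 0) ≤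
      ∑ t : ZMod p, Qf x y α β t := Finset.sum_le_sum fun t _ => Qf_ge x y α β t
  linarith

/-- The trivial bound. -/
theorem card_NN_trivial (x y α β : ZMod p) : ((NN x y α β).card : ℝ) ≤ p + 4 := by
  classical
  have h1 := Finset.card_filter_add_card_filter_not (s := NN x y α β) (fun n => ∀ j, n j < p)
  rw [← h1]
  push_cast
  have h2 := card_nonvertex x y α β
  have h3 : ((((NN x y α β).filter fun n => ¬ ∀ j, n j < p).card : ℕ) : ℝ) ≤ 4 := by
    exact_mod_cast card_vertex x y α β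
  have h4 : ∑ t : ZMod p, (if Sv x y α β t = p then (1 : ℝ) else 0) ≤ ∑ _t : ZMod p, (1 : ℝ) := by
    apply Finset.sum_le_sum
    intro t _
    split_ifs <;> norm_num
  rw [Finset.sum_const, Finset.card_univ, ZMod.card, nsmul_eq_mul, mul_one] at h4
  linarith

/-- correlations of `lam` -/
noncomputable def Pf (c d : ZMod p) : ℝ := ∑ s : ZMod p, lam (c * s) * lam (d * s)

theorem sum_affine (c e : ZMod p) (hc : c ≠ 0) (F : ZMod p → ℝ) :
    ∑ t : ZMod p, F (c * t + e) = ∑ t : ZMod p, F t := by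
  let E : ZMod p ≃ ZMod p := (Equiv.mulLeft₀ c hc).trans (Equiv.addRight e)
  exact Fintype.sum_equiv E _ _ (fun t => rfl)

theorem sum_Qf_le (x y α β : ZMod p) (hx : x ≠ 0) (hy : y ≠ 0) (hxy : x + y - 1 ≠ 0) :
    ∑ t : ZMod p, Qf x y α β t ≤ p / 6 + 1 + 11 / (6 * p) +
      1 / p * (Pf (x + y - 1) (-x) + Pf (x + y - 1) (-y) + Pf (x + y - 1) 1 + Pf (-x) (-y) +
        Pf (-x) 1 + Pf (-y) 1) := by
  have hp : (0 : ℝ) < p := Nat.cast_pos.2 (Fact.out : p.Prime).pos
  have h1 : (1 : ZMod p) ≠ 0 := one_ne_zero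
  have hx' : -x ≠ 0 := neg_ne_zero.2 hx
  have hy' : -y ≠ 0 := neg_ne_zero.2 hy
  set G0 : ZMod p → ℝ := fun t => gg ((x + y - 1) * t + -(α + β)) with hG0
  set G1 : ZMod p → ℝ := fun t => gg (-x * t + α) with hG1
  set G2 : ZMod p → ℝ := fun t => gg (-y * t + β) with hG2
  set G3 : ZMod p → ℝ := fun t => gg (1 * t + 0) with hG3
  have hS : ∀ t, (Sv x y α β t : ℝ) = G0 t + G1 t + G2 t + G3 t + 2 * ((p : ℝ) - 1) := by
    intro t
    unfold Sv
    rw [Fin.sum_univ_four]
    simp only [cf, ef, Matrix.cons_val_zero, Matrix.cons_val_one, Matrix.cons_val]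
    push_cast
    simp only [hG0, hG1, hG2, hG3, gg]
    ring
  have hQ : ∀ t, Qf x y α β t = 1 / (2 * (p : ℝ) ^ 2) *
      ((G0 t ^ 2 + G1 t ^ 2 + G2 t ^ 2 + G3 t ^ 2 + 2 * (G0 t * G1 t + G0 t * G2 t + G0 t * G3 t +
        G1 t * G2 t + G1 t * G3 t + G2 t * G3 t)) - (4 + p) * (G0 t + G1 t + G2 t + G3 t) +
        (4 + 2 * p)) := by
    intro t
    unfold Qf
    rw [hS]
    field_simp
    ring
  rw [Finset.sum_congr rfl (fun t _ => hQ t), ← Finset.mul_sum]
  simp only [Finset.sum_add_distrib, Finset.sum_sub_distrib, ← Finset.mul_sum]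
  have e0 : ∑ t, G0 t = 0 := by
    rw [hG0, sum_affine _ _ hxy (fun t => gg t)]; exact sum_gg
  have e1 : ∑ t, G1 t = 0 := by
    rw [hG1, sum_affine _ _ hx' (fun t => gg t)]; exact sum_gg
  have e2 : ∑ t, G2 t = 0 := by
    rw [hG2, sum_affine _ _ hy' (fun t => gg t)]; exact sum_gg
  have e3 : ∑ t, G3 t = 0 := by
    rw [hG3, sum_affine _ _ h1 (fun t => gg t)]; exact sum_gg
  have q0 : ∑ t, G0 t ^ 2 = p * ((p : ℝ) ^ 2 - 1) / 12 := by
    rw [hG0, sum_affine _ _ hxy (fun t => gg t ^ 2)]; exact sum_gg_sq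
  have q1 : ∑ t, G1 t ^ 2 = p * ((p : ℝ) ^ 2 - 1) / 12 := by
    rw [hG1, sum_affine _ _ hx' (fun t => gg t ^ 2)]; exact sum_gg_sq
  have q2 : ∑ t, G2 t ^ 2 = p * ((p : ℝ) ^ 2 - 1) / 12 := by
    rw [hG2, sum_affine _ _ hy' (fun t => gg t ^ 2)]; exact sum_gg_sq
  have q3 : ∑ t, G3 t ^ 2 = p * ((p : ℝ) ^ 2 - 1) / 12 := by
    rw [hG3, sum_affine _ _ h1 (fun t => gg t ^ 2)]; exact sum_gg_sq
  have k01 : ∑ t, G0 t * G1 t ≤ p * Pf (x + y - 1) (-x) :=
    (le_abs_self _).trans (corr _ _ _ _ hx')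
  have k02 : ∑ t, G0 t * G2 t ≤ p * Pf (x + y - 1) (-y) :=
    (le_abs_self _).trans (corr _ _ _ _ hy')
  have k03 : ∑ t, G0 t * G3 t ≤ p * Pf (x + y - 1) 1 :=
    (le_abs_self _).trans (corr _ _ _ _ h1)
  have k12 : ∑ t, G1 t * G2 t ≤ p * Pf (-x) (-y) :=
    (le_abs_self _).trans (corr _ _ _ _ hy')
  have k13 : ∑ t, G1 t * G3 t ≤ p * Pf (-x) 1 :=
    (le_abs_self _).trans (corr _ _ _ _ h1)
  have k23 : ∑ t, G2 t * G3 t ≤ p * Pf (-y) 1 :=
    (le_abs_self _).trans (corr _ _ _ _ h1)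
  have ec : ∑ _t : ZMod p, (p : ℝ) = p * p := by
    rw [Finset.sum_const, Finset.card_univ, ZMod.card, nsmul_eq_mul]
  rw [e0, e1, e2, e3, q0, q1, q2, q3, Finset.sum_const, Finset.card_univ, ZMod.card,
    nsmul_eq_mul, ec]
  set P := Pf (x + y - 1) (-x) + Pf (x + y - 1) (-y) + Pf (x + y - 1) 1 + Pf (-x) (-y) +
        Pf (-x) 1 + Pf (-y) 1 with hP
  set K := ∑ t, G0 t * G1 t + ∑ t, G0 t * G2 t + ∑ t, G0 t * G3 t + ∑ t, G1 t * G2 t +
    ∑ t, G1 t * G3 t + ∑ t, G2 t * G3 t with hK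
  have hKP : K ≤ p * P := by rw [hK, hP]; linarith
  have h5 : 1 / (2 * (p : ℝ) ^ 2) * (p * ((p : ℝ) ^ 2 - 1) / 12 + p * ((p : ℝ) ^ 2 - 1) / 12 +
      p * ((p : ℝ) ^ 2 - 1) / 12 + p * ((p : ℝ) ^ 2 - 1) / 12 + 2 * K -
      (4 + p) * (0 + 0 + 0 + 0) + (p * 4 + 2 * (p * p))) =
      p / 6 + 1 + 11 / (6 * p) + K / (p : ℝ) ^ 2 := by
    field_simp
    ring
  rw [h5]
  have h6 : K / (p : ℝ) ^ 2 ≤ 1 / p * P := by
    rw [div_le_iff₀ (by positivity)]
    have : 1 / (p : ℝ) * P * (p : ℝ) ^ 2 = p * P := by field_simp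
    rw [this]
    exact hKP
  linarith

theorem Pf_nonneg (c d : ZMod p) : 0 ≤ Pf c d :=
  Finset.sum_nonneg fun _ _ => mul_nonneg (lam_nonneg _) (lam_nonneg _)

/-- averages, two free directions -/
theorem avg_two (c d : ZMod p → ZMod p → ZMod p)
    (h : ∀ s : ZMod p, s ≠ 0 → ∑ x : ZMod p, ∑ y : ZMod p, lam (c x y * s) * lam (d x y * s) ≤
      LL p ^ 2) : ∑ x : ZMod p, ∑ y : ZMod p, Pf (c x y) (d x y) ≤ p * LL p ^ 2 := by
  unfold Pf
  have h1 : ∑ x : ZMod p, ∑ y : ZMod p, ∑ s : ZMod p, lam (c x y * s) * lam (d x y * s) =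
      ∑ s : ZMod p, ∑ x : ZMod p, ∑ y : ZMod p, lam (c x y * s) * lam (d x y * s) := by
    rw [Finset.sum_comm]
    rw [Finset.sum_congr rfl (fun y _ => Finset.sum_comm)]
    rw [Finset.sum_comm]
    refine Finset.sum_congr rfl fun s _ => ?_
    rw [Finset.sum_comm]
  rw [h1]
  calc ∑ s : ZMod p, ∑ x : ZMod p, ∑ y : ZMod p, lam (c x y * s) * lam (d x y * s)
      ≤ ∑ _s : ZMod p, LL p ^ 2 := by
        apply Finset.sum_le_sum
        intro s _
        by_cases hs : s = 0
        · subst hs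
          simp only [mul_zero, lam_zero, Finset.sum_const_zero]
          exact sq_nonneg _
        · exact h s hs
    _ = p * LL p ^ 2 := by
        rw [Finset.sum_const, Finset.card_univ, ZMod.card, nsmul_eq_mul]

/-- averages, one free direction -/
theorem avg_one (c : ZMod p → ZMod p → ZMod p)
    (h : ∀ s : ZMod p, s ≠ 0 → ∑ x : ZMod p, ∑ y : ZMod p, lam (c x y * s) ≤ p * LL p) :
    ∑ x : ZMod p, ∑ y : ZMod p, Pf (c x y) 1 ≤ p * LL p ^ 2 := by
  unfold Pf
  have h1 : ∑ x : ZMod p, ∑ y : ZMod p, ∑ s : ZMod p, lam (c x y * s) * lam (1 * s) =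
      ∑ s : ZMod p, (∑ x : ZMod p, ∑ y : ZMod p, lam (c x y * s)) * lam s := by
    rw [Finset.sum_comm]
    rw [Finset.sum_congr rfl (fun y _ => Finset.sum_comm)]
    rw [Finset.sum_comm]
    refine Finset.sum_congr rfl fun s _ => ?_
    rw [Finset.sum_comm, Finset.sum_mul]
    refine Finset.sum_congr rfl fun x _ => ?_
    rw [Finset.sum_mul, one_mul]
  rw [h1]
  calc ∑ s : ZMod p, (∑ x : ZMod p, ∑ y : ZMod p, lam (c x y * s)) * lam s
      ≤ ∑ s : ZMod p, (p * LL p) * lam s := by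
        apply Finset.sum_le_sum
        intro s _
        by_cases hs : s = 0
        · subst hs
          simp [lam_zero]
        · exact mul_le_mul_of_nonneg_right (h s hs) (lam_nonneg _)
    _ = p * LL p ^ 2 := by
        rw [← Finset.mul_sum]
        unfold LL
        ring

theorem sum_lam (c e s : ZMod p) (hc : c ≠ 0) (hs : s ≠ 0) :
    ∑ t : ZMod p, lam ((c * t + e) * s) = LL p := by
  rw [sum_affine c e hc (fun t => lam (t * s))]
  have h := sum_affine s 0 hs (fun t => lam t)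
  unfold LL
  rw [← h]
  refine Finset.sum_congr rfl fun t _ => ?_
  congr 1; ring

theorem avg_all : ∑ x : ZMod p, ∑ y : ZMod p,
    (Pf (x + y - 1) (-x) + Pf (x + y - 1) (-y) + Pf (x + y - 1) 1 + Pf (-x) (-y) +
        Pf (-x) 1 + Pf (-y) 1) ≤ 6 * (p * LL p ^ 2) := by
  have hm1 : (-1 : ZMod p) ≠ 0 := neg_ne_zero.2 one_ne_zero
  have hp1 : (1 : ZMod p) ≠ 0 := one_ne_zero
  have sx : ∀ s : ZMod p, s ≠ 0 → ∑ x : ZMod p, lam (-x * s) = LL p := by
    intro s hs
    rw [← sum_lam (-1) 0 s hm1 hs]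
    refine Finset.sum_congr rfl fun x _ => ?_
    congr 1; ring
  have sxy : ∀ s x : ZMod p, s ≠ 0 → ∑ y : ZMod p, lam ((x + y - 1) * s) = LL p := by
    intro s x hs
    rw [← sum_lam 1 (x - 1) s hp1 hs]
    refine Finset.sum_congr rfl fun y _ => ?_
    congr 1; ring
  have sxy' : ∀ s y : ZMod p, s ≠ 0 → ∑ x : ZMod p, lam ((x + y - 1) * s) = LL p := by
    intro s y hs
    rw [← sum_lam 1 (y - 1) s hp1 hs]
    refine Finset.sum_congr rfl fun x _ => ?_
    congr 1; ring
  have a1 : ∑ x : ZMod p, ∑ y : ZMod p, Pf (x + y - 1) (-x) ≤ p * LL p ^ 2 := by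
    apply avg_two (fun x y => x + y - 1) (fun x _ => -x)
    intro s hs
    apply le_of_eq
    have : ∀ x : ZMod p, ∑ y : ZMod p, lam ((x + y - 1) * s) * lam (-x * s) =
        LL p * lam (-x * s) := by
      intro x
      rw [← Finset.sum_mul, sxy s x hs]
    rw [Finset.sum_congr rfl (fun x _ => this x), ← Finset.mul_sum, sx s hs, sq]
  have a2 : ∑ x : ZMod p, ∑ y : ZMod p, Pf (x + y - 1) (-y) ≤ p * LL p ^ 2 := by
    apply avg_two (fun x y => x + y - 1) (fun _ y => -y)
    intro s hs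
    apply le_of_eq
    rw [Finset.sum_comm]
    have : ∀ y : ZMod p, ∑ x : ZMod p, lam ((x + y - 1) * s) * lam (-y * s) =
        LL p * lam (-y * s) := by
      intro y
      rw [← Finset.sum_mul, sxy' s y hs]
    rw [Finset.sum_congr rfl (fun y _ => this y), ← Finset.mul_sum, sx s hs, sq]
  have a3 : ∑ x : ZMod p, ∑ y : ZMod p, Pf (x + y - 1) 1 ≤ p * LL p ^ 2 := by
    apply avg_one (fun x y => x + y - 1)
    intro s hs
    apply le_of_eq
    rw [Finset.sum_congr rfl (fun x _ => sxy s x hs), Finset.sum_const, Finset.card_univ,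
      ZMod.card, nsmul_eq_mul]
  have a4 : ∑ x : ZMod p, ∑ y : ZMod p, Pf (-x) (-y) ≤ p * LL p ^ 2 := by
    apply avg_two (fun x _ => -x) (fun _ y => -y)
    intro s hs
    apply le_of_eq
    have : ∀ x : ZMod p, ∑ y : ZMod p, lam (-x * s) * lam (-y * s) = lam (-x * s) * LL p := by
      intro x
      rw [← Finset.mul_sum, sx s hs]
    rw [Finset.sum_congr rfl (fun x _ => this x), ← Finset.sum_mul, sx s hs, sq]
  have a5 : ∑ x : ZMod p, ∑ y : ZMod p, Pf (-x) 1 ≤ p * LL p ^ 2 := by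
    apply avg_one (fun x _ => -x)
    intro s hs
    apply le_of_eq
    rw [Finset.sum_comm, Finset.sum_congr rfl (fun y _ => sx s hs), Finset.sum_const,
      Finset.card_univ, ZMod.card, nsmul_eq_mul]
  have a6 : ∑ x : ZMod p, ∑ y : ZMod p, Pf (-y) 1 ≤ p * LL p ^ 2 := by
    apply avg_one (fun _ y => -y)
    intro s hs
    apply le_of_eq
    rw [Finset.sum_congr rfl (fun x _ => sx s hs), Finset.sum_const, Finset.card_univ,
      ZMod.card, nsmul_eq_mul]
  simp only [Finset.sum_add_distrib]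
  linarith

/-- the bad parameters -/
theorem card_good : (p : ℝ) ^ 2 - 3 * p ≤ ((((Finset.univ : Finset (ZMod p × ZMod p)).filter
    fun z => z.1 ≠ 0 ∧ z.2 ≠ 0 ∧ z.1 + z.2 - 1 ≠ 0).card : ℕ) : ℝ) := by
  classical
  set Gd := (Finset.univ : Finset (ZMod p × ZMod p)).filter
    fun z => z.1 ≠ 0 ∧ z.2 ≠ 0 ∧ z.1 + z.2 - 1 ≠ 0 with hGd
  have h1 : (Finset.univ : Finset (ZMod p × ZMod p)) ⊆ Gd ∪
      ((Finset.univ : Finset (ZMod p)).image (fun y => ((0 : ZMod p), y)) ∪
      ((Finset.univ : Finset (ZMod p)).image (fun x => (x, (0 : ZMod p))) ∪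
      (Finset.univ : Finset (ZMod p)).image (fun x => (x, 1 - x)))) := by
    rintro ⟨x, y⟩ -
    simp only [hGd, mem_union, mem_filter, mem_univ, true_and, mem_image, Prod.mk.injEq]
    by_cases hx : x = 0
    · right; left; exact ⟨y, hx.symm, rfl⟩
    by_cases hy : y = 0
    · right; right; left; exact ⟨x, rfl, hy.symm⟩
    by_cases hxy : x + y - 1 = 0
    · right; right; right
      refine ⟨x, rfl, ?_⟩
      linear_combination -hxy
    · left; exact ⟨hx, hy, hxy⟩
  have h2 := Finset.card_le_card h1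
  rw [Finset.card_univ, Fintype.card_prod, ZMod.card] at h2
  have h3 := (Finset.card_union_le Gd ((Finset.univ : Finset (ZMod p)).image
    (fun y => ((0 : ZMod p), y)) ∪ ((Finset.univ : Finset (ZMod p)).image (fun x => (x, (0 : ZMod p))) ∪
      (Finset.univ : Finset (ZMod p)).image (fun x => (x, 1 - x)))))
  have h4 := (Finset.card_union_le ((Finset.univ : Finset (ZMod p)).image
    (fun y => ((0 : ZMod p), y))) ((Finset.univ : Finset (ZMod p)).image (fun x => (x, (0 : ZMod p))) ∪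
      (Finset.univ : Finset (ZMod p)).image (fun x => (x, 1 - x))))
  have h5 := (Finset.card_union_le ((Finset.univ : Finset (ZMod p)).image
    (fun x => (x, (0 : ZMod p)))) ((Finset.univ : Finset (ZMod p)).image (fun x => (x, 1 - x))))
  have c1 : ((Finset.univ : Finset (ZMod p)).image (fun y => ((0 : ZMod p), y))).card ≤ p :=
    (Finset.card_image_le).trans (by rw [Finset.card_univ, ZMod.card])
  have c2 : ((Finset.univ : Finset (ZMod p)).image (fun x => (x, (0 : ZMod p)))).card ≤ p :=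
    (Finset.card_image_le).trans (by rw [Finset.card_univ, ZMod.card])
  have c3 : ((Finset.univ : Finset (ZMod p)).image (fun x => (x, 1 - x))).card ≤ p :=
    (Finset.card_image_le).trans (by rw [Finset.card_univ, ZMod.card])
  have h6 : p * p ≤ Gd.card + 3 * p := by omega
  have h7 : (p : ℝ) * p ≤ Gd.card + 3 * p := by exact_mod_cast h6
  rw [sq]
  linarith

/-- **The counting theorem.** -/
theorem count_main (p : ℕ) [Fact p.Prime] : ∃ x y : ZMod p, x + y - 1 ≠ 0 ∧ ∀ α β : ZMod p,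
    ((NN x y α β).card : ℝ) ≤ p / 6 + 2 * (1 + Real.log p) ^ 2 + 6 := by
  classical
  have hpp := (Fact.out : p.Prime)
  have hp : (0 : ℝ) < p := Nat.cast_pos.2 hpp.pos
  have hlog : 0 ≤ Real.log p := Real.log_natCast_nonneg p
  by_cases hsmall : p < 12
  · -- trivial bound
    refine ⟨0, 0, by rw [zero_add, zero_sub]; exact neg_ne_zero.2 one_ne_zero, fun α β => ?_⟩
    refine (card_NN_trivial 0 0 α β).trans ?_
    have h12 : (p : ℝ) ≤ 11 := by exact_mod_cast (by omega : p ≤ 11)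
    by_cases h6 : p ≤ 4
    · have h6' : (p : ℝ) ≤ 4 := by exact_mod_cast h6
      nlinarith
    · have h4' : (4 : ℝ) ≤ p := by exact_mod_cast (by omega : 4 ≤ p)
      have h1 : (1 : ℝ) ≤ Real.log p := by
        rw [Real.le_log_iff_exp_le hp]
        have := Real.exp_one_lt_d9
        linarith
      nlinarith
  · have h12 : (12 : ℝ) ≤ p := by exact_mod_cast (not_lt.1 hsmall)
    set Gd := (Finset.univ : Finset (ZMod p × ZMod p)).filter
      fun z => z.1 ≠ 0 ∧ z.2 ≠ 0 ∧ z.1 + z.2 - 1 ≠ 0 with hGd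
    set F : ZMod p × ZMod p → ℝ := fun z => Pf (z.1 + z.2 - 1) (-z.1) +
      Pf (z.1 + z.2 - 1) (-z.2) + Pf (z.1 + z.2 - 1) 1 + Pf (-z.1) (-z.2) + Pf (-z.1) 1 +
      Pf (-z.2) 1 with hF
    have hF0 : ∀ z, 0 ≤ F z := by
      intro z
      have := Pf_nonneg (z.1 + z.2 - 1) (-z.1)
      have := Pf_nonneg (z.1 + z.2 - 1) (-z.2)
      have := Pf_nonneg (z.1 + z.2 - 1) 1
      have := Pf_nonneg (-z.1) (-z.2)
      have := Pf_nonneg (-z.1) 1
      have := Pf_nonneg (-z.2) 1
      simp only [hF]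
      linarith
    have h1 : ∑ z ∈ Gd, F z ≤ 6 * (p * LL p ^ 2) := by
      calc ∑ z ∈ Gd, F z ≤ ∑ z, F z := Finset.sum_le_sum_of_subset_of_nonneg
            (Finset.subset_univ _) (fun z _ _ => hF0 z)
        _ = ∑ x : ZMod p, ∑ y : ZMod p, F (x, y) := Fintype.sum_prod_type _
        _ ≤ _ := avg_all
    have hcard := card_good (p := p)
    obtain ⟨z, hz, hFz⟩ : ∃ z ∈ Gd, F z ≤ 6 * LL p ^ 2 / (p - 3) := by
      by_contra hcon
      push Not at hcon
      have hne : Gd.Nonempty := by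
        rw [← Finset.card_pos]
        have : (0 : ℝ) < Gd.card := by
          refine lt_of_lt_of_le ?_ hcard
          nlinarith
        exact_mod_cast this
      have h2 := Finset.sum_lt_sum_of_nonempty hne (fun z hz => hcon z hz)
      rw [Finset.sum_const, nsmul_eq_mul] at h2
      have h3 : ((p : ℝ) ^ 2 - 3 * p) * (6 * LL p ^ 2 / (p - 3)) = 6 * (p * LL p ^ 2) := by
        have : (p : ℝ) - 3 ≠ 0 := by linarith
        field_simp
      have h4 : ((p : ℝ) ^ 2 - 3 * p) * (6 * LL p ^ 2 / (p - 3)) ≤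
          Gd.card * (6 * LL p ^ 2 / (p - 3)) := by
        apply mul_le_mul_of_nonneg_right hcard
        apply div_nonneg (by positivity) (by linarith)
      linarith
    rw [hGd, mem_filter] at hz
    obtain ⟨-, hx, hy, hxy⟩ := hz
    refine ⟨z.1, z.2, hxy, fun α β => ?_⟩
    have h5 := card_NN_le z.1 z.2 α β
    have h6 := sum_Qf_le z.1 z.2 α β hx hy hxy
    have h7 : 1 / (p : ℝ) * F z ≤ 2 * (1 + Real.log p) ^ 2 := by
      have hL := LL_le (p := p)
      have hL0 := LL_nonneg (p := p)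
      have h8 : LL p ^ 2 ≤ (p / 2 * (1 + Real.log p)) ^ 2 := by gcongr
      calc 1 / (p : ℝ) * F z ≤ 1 / (p : ℝ) * (6 * LL p ^ 2 / (p - 3)) := by gcongr
        _ ≤ 1 / (p : ℝ) * (6 * (p / 2 * (1 + Real.log p)) ^ 2 / (p - 3)) := by
          have : (0 : ℝ) < p - 3 := by linarith
          gcongr
        _ = (3 / 2 * p / (p - 3)) * (1 + Real.log p) ^ 2 := by
          have : (p : ℝ) - 3 ≠ 0 := by linarith
          field_simp
          ring
        _ ≤ 2 * (1 + Real.log p) ^ 2 := by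
          apply mul_le_mul_of_nonneg_right _ (by positivity)
          rw [div_le_iff₀ (by linarith)]
          linarith
    have h9 : 11 / (6 * (p : ℝ)) ≤ 1 := by
      rw [div_le_one (by positivity)]
      linarith
    have h10 : ∑ t : ZMod p, Qf z.1 z.2 α β t ≤ p / 6 + 1 + 11 / (6 * p) + 1 / p * F z := h6
    linarith

end Pool.Agent.Helper74.SD
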