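import Pool.Agent.Helper74.SD.ModP

/-!
The coefficients `wj` over `ℂ`: non-vanishing and independence.
-/

namespace Pool.Agent.Helper74.SD

open MvPolynomial Finset
open scoped Nat

variable {p : ℕ} [Fact p.Prime]

theorem map_hc {R S : Type} [CommRing R] [CommRing S] (f : R →+* S) (ζ : R)
    (a b : Fin 4 → ZMod p) (i i' : ZMod p) (j : Fin 4) :
    f (hc ζ a b i i' j) = hc (f ζ) a b i i' j := by
  unfold hc ee
  split_ifs <;> simp

theorem map_wj {R S : Type} [CommRing R] [CommRing S] (f : R →+* S) (ζ : R)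
    (a b : Fin 4 → ZMod p) (j : Fin 4) (n : Fin 4 →₀ ℕ) :
    f (wj ζ a b j n) = wj (f ζ) a b j n := by
  unfold wj
  have h1 : (MvPolynomial.map f).mapMatrix (HM ζ a b) = HM (f ζ) a b := by
    ext1 i i'
    rw [RingHom.mapMatrix_apply, Matrix.map_apply, HM_apply, HM_apply, map_sum]
    refine Finset.sum_congr rfl fun j _ => ?_
    rw [map_mul, map_C, map_X, map_hc]
  rw [← coeff_map, map_mul, map_X]
  have h2 := congrArg (fun M => M 0 (wt a n - a j))
    (RingHom.map_adjugate (MvPolynomial.map f) (HM ζ a b))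
  simp only [RingHom.mapMatrix_apply, Matrix.map_apply] at h2
  rw [h2]
  rw [RingHom.mapMatrix_apply] at h1
  rw [h1]

/-- `ℤ[ζ]` -/
abbrev Oc (p : ℕ) : Type := AdjoinRoot (Polynomial.cyclotomic p ℤ)

/-- The complex root of unity. -/
noncomputable def zC (p : ℕ) : ℂ := Complex.exp (2 * Real.pi * Complex.I / p)

theorem zC_prim : IsPrimitiveRoot (zC p) p :=
  Complex.isPrimitiveRoot_exp p (Fact.out : p.Prime).ne_zero

/-- the embedding in `ℂ` -/
noncomputable def toC (p : ℕ) [Fact p.Prime] : Oc p →+* ℂ :=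
  AdjoinRoot.lift (Int.castRingHom ℂ) (zC p) (by
    have h := zC_prim (p := p)
    have h1 := h.isRoot_cyclotomic (Fact.out : p.Prime).pos
    rw [Polynomial.IsRoot.def, ← Polynomial.map_cyclotomic_int, Polynomial.eval_map] at h1
    exact h1)

/-- the residue map -/
noncomputable def toF (p : ℕ) [Fact p.Prime] : Oc p →+* ZMod p :=
  AdjoinRoot.lift (Int.castRingHom (ZMod p)) 1 (by
    rw [← Polynomial.eval_map, Polynomial.map_cyclotomic_int,
      Polynomial.eval_one_cyclotomic_prime, CharP.cast_eq_zero])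

theorem toC_root : toC p (AdjoinRoot.root _) = zC p := AdjoinRoot.lift_root _

theorem toF_root : toF p (AdjoinRoot.root _) = 1 := AdjoinRoot.lift_root _

theorem toC_injective : Function.Injective (toC p) := by
  rw [injective_iff_map_eq_zero]
  intro x hx
  obtain ⟨g, rfl⟩ := AdjoinRoot.mk_surjective x
  unfold toC at hx
  rw [AdjoinRoot.lift_mk] at hx
  rw [AdjoinRoot.mk_eq_zero, Polynomial.cyclotomic_eq_minpoly zC_prim (Fact.out : p.Prime).pos]
  apply minpoly.isIntegrallyClosed_dvd (zC_prim.isIntegral (Fact.out : p.Prime).pos)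
  exact hx

theorem wj_ne_zero_of {a b : Fin 4 → ZMod p} {j : Fin 4} {n : Fin 4 →₀ ℕ}
    (hn : ∑ j, n j = p) (hj : n j ≠ 0) : wj (zC p) a b j n ≠ 0 := by
  intro h0
  rw [← toC_root, ← map_wj] at h0
  have h1 : wj (AdjoinRoot.root (Polynomial.cyclotomic p ℤ)) a b j n = 0 := by
    apply toC_injective
    rw [h0, map_zero]
  have h2 := congrArg (toF p) h1
  rw [map_wj, toF_root, map_zero] at h2
  exact wj_one_ne a b j n hn hj h2

theorem wj_M1 (a b : Fin 4 → ZMod p) (n : Fin 4 →₀ ℕ) (hn : ∑ j, n j = p) :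
    ∃ j, wj (zC p) a b j n ≠ 0 := by
  have h1 : ∃ j, n j ≠ 0 := by
    by_contra h
    push Not at h
    rw [Finset.sum_congr rfl (fun j _ => h j)] at hn
    simp at hn
    exact (Fact.out : p.Prime).ne_zero hn.symm
  obtain ⟨j, hj⟩ := h1
  exact ⟨j, wj_ne_zero_of hn hj⟩

theorem fct_ne {n : Fin 4 →₀ ℕ} (h : ∀ j, n j < p) : (fct n : ZMod p) ≠ 0 := by
  intro h0
  rw [ZMod.natCast_eq_zero_iff] at h0
  unfold fct at h0
  rw [Prime.dvd_finsetProd_iff (Fact.out : p.Prime).prime] at h0
  obtain ⟨j, -, hj⟩ := h0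
  rw [(Fact.out : p.Prime).dvd_factorial] at hj
  have := h j
  omega

theorem lt_of_wt {a b : Fin 4 → ZMod p} {n : Fin 4 →₀ ℕ} (hn : ∑ j, n j = p)
    (h : wt a n ≠ 0 ∨ wt b n ≠ 0) (j : Fin 4) : n j < p := by
  by_contra hlt
  have hle : n j ≤ p := by
    rw [← hn]; exact Finset.single_le_sum (f := fun j => n j) (fun _ _ => Nat.zero_le _)
      (Finset.mem_univ j)
  have heq : n j = p := by omega
  have h0 : ∀ i, i ≠ j → n i = 0 := by
    intro i hi
    have h1 := Finset.add_sum_erase Finset.univ (fun j => n j) (Finset.mem_univ j)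
    have h2 : ∑ x ∈ univ.erase j, n x = 0 := by
      have : ∑ j, n j = p := hn
      omega
    exact (Finset.sum_eq_zero_iff.1 h2) i (Finset.mem_erase.2 ⟨hi, Finset.mem_univ _⟩)
  have h1 : ∀ c : Fin 4 → ZMod p, wt c n = 0 := by
    intro c
    unfold wt
    apply Finset.sum_eq_zero
    intro i _
    by_cases hi : i = j
    · rw [hi, heq]; simp
    · rw [h0 i hi]; simp
  rcases h with h | h
  · exact h (h1 a)
  · exact h (h1 b)

theorem wj_M2_nonzero (a b : Fin 4 → ZMod p) (n n' : Fin 4 →₀ ℕ) (hn : ∑ j, n j = p)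
    (hn' : ∑ j, n' j = p) (ha : wt a n = wt a n') (hb : wt b n = wt b n')
    (h0 : wt a n ≠ 0 ∨ wt b n ≠ 0) (hne : n ≠ n') :
    ∃ j j', wj (zC p) a b j n * wj (zC p) a b j' n' ≠
      wj (zC p) a b j' n * wj (zC p) a b j n' := by
  by_contra hcon
  push Not at hcon
  have hlt := lt_of_wt hn h0
  have hlt' := lt_of_wt (a := a) (b := b) hn' (by rw [← ha, ← hb]; exact h0)
  have hF := fct_ne hlt
  have hF' := fct_ne hlt'
  have hw : ((p - 1)! : ZMod p) ≠ 0 := by
    rw [ZMod.wilsons_lemma]; exact neg_ne_zero.2 one_ne_zero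
  have h1 : ∀ j j', (n j : ZMod p) * n' j' = n j' * n' j := by
    intro j j'
    have h2 := hcon j j'
    rw [← toC_root, ← map_wj, ← map_wj, ← map_wj, ← map_wj, ← map_mul, ← map_mul] at h2
    have h3 := congrArg (toF p) (toC_injective h2)
    rw [map_mul, map_mul, map_wj, map_wj, map_wj, map_wj, toF_root] at h3
    have h4 := wj_one a b j n hn
    have h5 := wj_one a b j' n' hn'
    have h6 := wj_one a b j' n hn
    have h7 := wj_one a b j n' hn'
    have h8 : ((n j : ZMod p) * n' j') * (((p - 1)! : ZMod p) * ((p - 1)! : ZMod p)) =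
        (n j' * n' j) * (((p - 1)! : ZMod p) * ((p - 1)! : ZMod p)) := by
      calc ((n j : ZMod p) * n' j') * (((p - 1)! : ZMod p) * ((p - 1)! : ZMod p))
          = ((n j : ZMod p) * ((p - 1)! : ZMod p)) * (n' j' * ((p - 1)! : ZMod p)) := by ring
        _ = ((fct n : ZMod p) * wj 1 a b j n) * ((fct n' : ZMod p) * wj 1 a b j' n') := by
          rw [h4, h5]
        _ = (fct n : ZMod p) * (fct n' : ZMod p) * (wj 1 a b j n * wj 1 a b j' n') := by ring
        _ = (fct n : ZMod p) * (fct n' : ZMod p) * (wj 1 a b j' n * wj 1 a b j n') := by rw [h3]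
        _ = ((fct n : ZMod p) * wj 1 a b j' n) * ((fct n' : ZMod p) * wj 1 a b j n') := by ring
        _ = _ := by rw [h6, h7]; ring
    exact mul_right_cancel₀ (mul_ne_zero hw hw) h8
  have h2 : ∀ (c : Fin 4 → ZMod p) (j : Fin 4), wt c n = wt c n' →
      wt c n * ((n j : ZMod p) - n' j) = 0 := by
    intro c j hc
    rw [mul_sub, sub_eq_zero]
    nth_rewrite 1 [hc]
    unfold wt
    rw [Finset.sum_mul, Finset.sum_mul]
    refine Finset.sum_congr rfl fun j' _ => ?_
    have := h1 j j'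
    calc (n' j' : ZMod p) * c j' * n j = (n j * n' j') * c j' := by ring
      _ = (n j' * n' j) * c j' := by rw [this]
      _ = _ := by ring
  have h3 : ∀ j, (n j : ZMod p) = n' j := by
    intro j
    rcases h0 with h0 | h0
    · exact sub_eq_zero.1 ((mul_eq_zero.1 (h2 a j ha)).resolve_left h0)
    · exact sub_eq_zero.1 ((mul_eq_zero.1 (h2 b j hb)).resolve_left h0)
  apply hne
  ext j
  have h4 := (ZMod.natCast_eq_natCast_iff _ _ _).1 (h3 j)
  exact Nat.ModEq.eq_of_lt_of_lt h4 (hlt j) (hlt' j)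

/-- the relation with the determinant in the coset of zero -/
theorem wj_zero {ζ : ℂ} (hζ : IsPrimitiveRoot ζ p) (a b : Fin 4 → ZMod p) (n : Fin 4 →₀ ℕ)
    (ha : wt a n = 0) (hb : wt b n = 0) (j : Fin 4) :
    (n j : ℂ) * coeff n (HM ζ a b).det = p * ee ζ (-(a j * b j)) * wj ζ a b j n := by
  have h := hζ.pow_eq_one
  -- `X j * ∂_j f`
  have h1 : ∀ f : MvPolynomial (Fin 4) ℂ, coeff n (X j * pderiv j f) = (n j : ℂ) * coeff n f := by
    intro f
    rw [coeff_X_mul']
    by_cases hj : n j = 0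
    · rw [if_neg (by simpa using hj), hj, Nat.cast_zero, zero_mul]
    · rw [if_pos (by simpa using hj), coeff_pderiv_aux, tsub_add_cancel_of_le (by
        rw [Finsupp.single_le_iff]; omega)]
      have h2 : (n - Finsupp.single j 1 : Fin 4 →₀ ℕ) j = n j - 1 := by simp
      rw [h2, Nat.cast_sub (by omega), mul_comm]
      push_cast
      ring
  rw [← h1, derivation_det]
  have h2 : ∀ i i' : ZMod p, pderiv j (HM ζ a b i i') =
      if i' = i + a j then C (ee ζ (b j * i)) else 0 := by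
    intro i i'
    rw [HM_apply, map_sum, Finset.sum_eq_single j]
    · rw [pderiv_C_mul, pderiv_X_self, mul_one]
      unfold hc
      split_ifs <;> simp
    · intro j' _ hj'
      rw [pderiv_C_mul, pderiv_X_of_ne hj', mul_zero]
    · simp
  have h3 : ∑ i, ∑ i', (HM ζ a b).adjugate i' i * pderiv j (HM ζ a b i i') =
      ∑ i, (HM ζ a b).adjugate (i + a j) i * C (ee ζ (b j * i)) := by
    refine Finset.sum_congr rfl fun i _ => ?_
    rw [Finset.sum_eq_single (i + a j)]
    · rw [h2, if_pos rfl]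
    · intro i' _ hi'
      rw [h2, if_neg hi', mul_zero]
    · simp
  rw [h3, Finset.mul_sum, coeff_sum]
  have h4 : ∀ i ∈ (Finset.univ : Finset (ZMod p)),
      coeff n (X j * ((HM ζ a b).adjugate (i + a j) i * C (ee ζ (b j * i)))) =
        ee ζ (-(a j * b j)) * wj ζ a b j n := by
    intro i _
    have h5 : X j * ((HM ζ a b).adjugate (i + a j) i * C (ee ζ (b j * i))) =
        C (ee ζ (b j * i)) * (X j * (HM ζ a b).adjugate (i + a j) i) := by ring
    rw [h5, coeff_C_mul, HM_coeff hζ, if_pos (by rw [ha]; ring), ← mul_assoc, ← ee_add h, hb]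
    congr 2
    ring
  rw [Finset.sum_congr rfl h4, Finset.sum_const, Finset.card_univ, ZMod.card, nsmul_eq_mul]
  ring

theorem wj_M2_zero (a b : Fin 4 → ZMod p) (n n' : Fin 4 →₀ ℕ) (hn : ∑ j, n j = p)
    (hn' : ∑ j, n' j = p) (ha : wt a n = 0) (hb : wt b n = 0) (ha' : wt a n' = 0)
    (hb' : wt b n' = 0) (hne : n ≠ n') :
    ∃ j j', wj (zC p) a b j n * wj (zC p) a b j' n' ≠
      wj (zC p) a b j' n * wj (zC p) a b j n' := by
  by_contra hcon
  push Not at hcon
  have hζ := zC_prim (p := p)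
  have h := hζ.pow_eq_one
  have hp0 : (p : ℂ) ≠ 0 := Nat.cast_ne_zero.2 (Fact.out : p.Prime).ne_zero
  have hee : ∀ x : ZMod p, ee (zC p) x ≠ 0 := by
    intro x hx
    have := ee_mul_neg h x
    rw [hx, zero_mul] at this
    exact zero_ne_one this
  -- the determinant coefficients do not vanish
  have hd : ∀ m : Fin 4 →₀ ℕ, ∑ j, m j = p → wt a m = 0 → wt b m = 0 →
      coeff m (HM (zC p) a b).det ≠ 0 := by
    intro m hm h1 h2 h3
    have h4 : ∃ j, m j ≠ 0 := by
      by_contra h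
      push Not at h
      rw [Finset.sum_congr rfl (fun j _ => h j)] at hm
      simp at hm
      exact (Fact.out : p.Prime).ne_zero hm.symm
    obtain ⟨j, hj⟩ := h4
    have h5 := wj_zero hζ a b m h1 h2 j
    rw [h3, mul_zero] at h5
    exact (mul_ne_zero (mul_ne_zero hp0 (hee _)) (wj_ne_zero_of hm hj)) h5.symm
  have hd1 := hd n hn ha hb
  have hd2 := hd n' hn' ha' hb'
  have h1 : ∀ j j', (n j : ℂ) * n' j' = n j' * n' j := by
    intro j j'
    have h2 := hcon j j'
    have e1 := wj_zero hζ a b n ha hb j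
    have e2 := wj_zero hζ a b n' ha' hb' j'
    have e3 := wj_zero hζ a b n ha hb j'
    have e4 := wj_zero hζ a b n' ha' hb' j
    set D := coeff n (HM (zC p) a b).det
    set D' := coeff n' (HM (zC p) a b).det
    set x := ee (zC p) (-(a j * b j))
    set y := ee (zC p) (-(a j' * b j'))
    have h3 : ((n j : ℂ) * n' j') * (D * D') = (n j' * n' j) * (D * D') := by
      calc ((n j : ℂ) * n' j') * (D * D') = (n j * D) * (n' j' * D') := by ring
        _ = (p * x) * (p * y) * (wj (zC p) a b j n * wj (zC p) a b j' n') := by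
          rw [e1, e2]; ring
        _ = (p * x) * (p * y) * (wj (zC p) a b j' n * wj (zC p) a b j n') := by rw [h2]
        _ = (p * y * wj (zC p) a b j' n) * (p * x * wj (zC p) a b j n') := by ring
        _ = (n j' * D) * (n' j * D') := by rw [e3, e4]
        _ = _ := by ring
    exact mul_right_cancel₀ (mul_ne_zero hd1 hd2) h3
  apply hne
  ext j
  have h2 : (n j : ℂ) * p = n' j * p := by
    have h3 : ∑ j', (n j : ℂ) * n' j' = ∑ j', (n j' : ℂ) * n' j :=
      Finset.sum_congr rfl (fun j' _ => h1 j j')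
    rw [← Finset.mul_sum, ← Finset.sum_mul, ← Nat.cast_sum, ← Nat.cast_sum, hn, hn'] at h3
    rw [h3, mul_comm]
  have h3 := mul_right_cancel₀ hp0 h2
  exact_mod_cast h3

theorem wj_M2 (a b : Fin 4 → ZMod p) (n n' : Fin 4 →₀ ℕ) (hn : ∑ j, n j = p)
    (hn' : ∑ j, n' j = p) (ha : wt a n = wt a n') (hb : wt b n = wt b n') (hne : n ≠ n') :
    ∃ j j', wj (zC p) a b j n * wj (zC p) a b j' n' ≠
      wj (zC p) a b j' n * wj (zC p) a b j n' := by
  by_cases h0 : wt a n ≠ 0 ∨ wt b n ≠ 0
  · exact wj_M2_nonzero a b n n' hn hn' ha hb h0 hne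
  · push Not at h0
    exact wj_M2_zero a b n n' hn hn' h0.1 h0.2 (by rw [← ha]; exact h0.1)
      (by rw [← hb]; exact h0.2) hne

end Pool.Agent.Helper74.SD
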