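import Pool.Agent.Helper74.SD.Core

/-!
Correlations of sawtooth functions on `ℤ/p`.
-/

namespace Pool.Agent.Helper74.SD

open Finset

variable {p : ℕ} [Fact p.Prime]

theorem sum_val {M : Type*} [AddCommMonoid M] (F : ℕ → M) :
    ∑ x : ZMod p, F x.val = ∑ k ∈ range p, F k := by
  refine Finset.sum_bij (fun i _ => i.val) ?_ ?_ ?_ ?_
  · intro i _; exact mem_range.2 (ZMod.val_lt i)
  · intro i _ i' _ h; exact ZMod.val_injective p h
  · intro l hl; exact ⟨(l : ZMod p), mem_univ _, ZMod.val_cast_of_lt (mem_range.1 hl)⟩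
  · intro i _; rfl

/-- The centred residue. -/
noncomputable def gg (x : ZMod p) : ℝ := (x.val : ℝ) - ((p : ℝ) - 1) / 2

/-- `1 / |1 - ζ ^ u|` (and `0` for `u = 0`). -/
noncomputable def lam (u : ZMod p) : ℝ := 1 / ‖1 - ee (zC p) u‖

/-- Fourier transform of `gg` -/
noncomputable def gh (u : ZMod p) : ℂ := ∑ x : ZMod p, (gg x : ℂ) * ee (zC p) (u * x)

theorem sum_gg : ∑ x : ZMod p, gg x = 0 := by
  unfold gg
  rw [Finset.sum_sub_distrib, sum_val (fun k => (k : ℝ)), Finset.sum_const, Finset.card_univ,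
    ZMod.card, nsmul_eq_mul]
  have h : ∀ n : ℕ, ∑ k ∈ range n, (k : ℝ) = n * (n - 1) / 2 := by
    intro n
    induction n with
    | zero => simp
    | succ n ih => rw [Finset.sum_range_succ, ih]; push_cast; ring
  rw [h]; ring

theorem sum_gg_sq : ∑ x : ZMod p, gg x ^ 2 = p * ((p : ℝ) ^ 2 - 1) / 12 := by
  unfold gg
  rw [sum_val (fun k => ((k : ℝ) - ((p : ℝ) - 1) / 2) ^ 2)]
  have h : ∀ (n : ℕ) (c : ℝ), ∑ k ∈ range n, ((k : ℝ) - c) ^ 2 =
      n * (n - 1) * (2 * n - 1) / 6 - c * (n * (n - 1)) + n * c ^ 2 := by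
    intro n c
    induction n with
    | zero => simp
    | succ n ih => rw [Finset.sum_range_succ, ih]; push_cast; ring
  rw [h]; ring

theorem ee_ne_one {u : ZMod p} (hu : u ≠ 0) : ee (zC p) u ≠ 1 := by
  intro h
  unfold ee at h
  have h1 := (zC_prim (p := p)).pow_eq_one_iff_dvd u.val |>.1 h
  have h2 := ZMod.val_lt u
  have h3 : u.val = 0 := Nat.eq_zero_of_dvd_of_lt h1 h2
  exact hu ((ZMod.val_eq_zero u).1 h3)

theorem gg_add_one (x : ZMod p) : gg (x + 1) = gg x + 1 - if x = -1 then (p : ℝ) else 0 := by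
  have hp := (Fact.out : p.Prime).one_lt
  unfold gg
  have hv1 : (1 : ZMod p).val = 1 := ZMod.val_one'' (by omega)
  have hlt := ZMod.val_lt x
  by_cases hx : x = -1
  · subst hx
    rw [neg_add_cancel, ZMod.val_zero, if_pos rfl]
    have h1 : ((-1 : ZMod p)).val = p - 1 := by
      have h2 := ZMod.val_add (-1 : ZMod p) 1
      rw [neg_add_cancel, ZMod.val_zero, hv1] at h2
      have h3 : p ∣ (-1 : ZMod p).val + 1 := Nat.dvd_of_mod_eq_zero h2.symm
      have h4 := Nat.le_of_dvd (by omega) h3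
      omega
    rw [h1, Nat.cast_sub (by omega)]
    push_cast; ring
  · rw [if_neg hx]
    have h2 := ZMod.val_add x 1
    rw [hv1] at h2
    have h3 : x.val + 1 ≠ p := by
      intro h4
      rw [h4, Nat.mod_self] at h2
      apply hx
      have := (ZMod.val_eq_zero (x + 1)).1 h2
      exact eq_neg_of_add_eq_zero_left this
    rw [Nat.mod_eq_of_lt (by omega)] at h2
    rw [h2]; push_cast; ring

theorem gh_zero : gh (0 : ZMod p) = 0 := by
  unfold gh
  simp only [zero_mul, ee_zero, mul_one]
  rw [← Complex.ofReal_sum, sum_gg, Complex.ofReal_zero]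

theorem gh_mul {u : ZMod p} (hu : u ≠ 0) : gh u * (ee (zC p) u - 1) = p := by
  have h1 := (zC_prim (p := p)).pow_eq_one
  have h2 : gh u = ee (zC p) u * gh u - p := by
    calc gh u = ∑ x : ZMod p, (gg (x + 1) : ℂ) * ee (zC p) (u * (x + 1)) := by
          unfold gh
          exact (Fintype.sum_equiv (Equiv.addRight (1 : ZMod p)) _ _ (fun x => rfl)).symm
      _ = ∑ x : ZMod p, (ee (zC p) u * ((gg x : ℂ) * ee (zC p) (u * x)) +
            ee (zC p) u * ee (zC p) (u * x) - if x = -1 then (p : ℂ) else 0) := by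
          refine Finset.sum_congr rfl fun x _ => ?_
          rw [gg_add_one, mul_add, mul_one, ee_add h1]
          split_ifs with hx
          · subst hx
            have h3 : ee (zC p) (u * -1) * ee (zC p) u = 1 := by
              rw [mul_comm, mul_neg_one, ee_mul_neg h1]
            push_cast
            linear_combination (-(p : ℂ)) * h3
          · push_cast; ring
      _ = ee (zC p) u * gh u - p := by
          rw [Finset.sum_sub_distrib, Finset.sum_add_distrib, ← Finset.mul_sum, ← Finset.mul_sum,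
            ee_orth zC_prim, if_neg hu, mul_zero, add_zero, Finset.sum_ite_eq' univ (-1 : ZMod p)]
          simp [gh]
  linear_combination (-1 : ℂ) * h2

theorem norm_gh (u : ZMod p) : ‖gh u‖ = p * lam u := by
  by_cases hu : u = 0
  · subst hu
    rw [gh_zero]
    unfold lam
    rw [ee_zero]; simp
  · have h1 := congrArg norm (gh_mul hu)
    rw [norm_mul, Complex.norm_natCast] at h1
    have h2 : ‖ee (zC p) u - 1‖ ≠ 0 := norm_ne_zero_iff.2 (sub_ne_zero.2 (ee_ne_one hu))
    unfold lam
    rw [norm_sub_rev, mul_one_div, eq_div_iff h2, h1]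

theorem inversion (x : ZMod p) : ∑ u, gh u * ee (zC p) (-(u * x)) = (p : ℂ) * gg x := by
  have h1 := (zC_prim (p := p)).pow_eq_one
  unfold gh
  simp_rw [Finset.sum_mul]
  rw [Finset.sum_comm]
  have h2 : ∀ x' : ZMod p, ∑ u : ZMod p, (gg x' : ℂ) * ee (zC p) (u * x') * ee (zC p) (-(u * x)) =
      if x' = x then (p : ℂ) * gg x else 0 := by
    intro x'
    have h3 : ∀ u : ZMod p, (gg x' : ℂ) * ee (zC p) (u * x') * ee (zC p) (-(u * x)) =
        gg x' * ee (zC p) ((x' - x) * u) := by
      intro u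
      rw [mul_assoc, ← ee_add h1]
      congr 2; ring
    rw [Finset.sum_congr rfl (fun u _ => h3 u), ← Finset.mul_sum, ee_orth zC_prim]
    by_cases hx : x' = x
    · rw [if_pos (by rw [hx, sub_self]), if_pos hx, hx, mul_comm]
    · rw [if_neg (fun h => hx (sub_eq_zero.1 h)), if_neg hx, mul_zero]
  rw [Finset.sum_congr rfl (fun x' _ => h2 x')]
  simp

theorem norm_ee (x : ZMod p) : ‖ee (zC p) x‖ = 1 := by
  unfold ee
  rw [norm_pow, Complex.norm_eq_one_of_pow_eq_one (zC_prim (p := p)).pow_eq_one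
    (Fact.out : p.Prime).ne_zero, one_pow]

omit [Fact p.Prime] in
theorem lam_nonneg (u : ZMod p) : 0 ≤ lam u := by unfold lam; positivity

theorem lam_zero : lam (0 : ZMod p) = 0 := by unfold lam; rw [ee_zero]; simp

theorem corr (c d e f : ZMod p) (hd : d ≠ 0) :
    |∑ t : ZMod p, gg (c * t + e) * gg (d * t + f)| ≤ p * ∑ s : ZMod p, lam (c * s) * lam (d * s) := by
  have h1 := (zC_prim (p := p)).pow_eq_one
  have hp : (0 : ℝ) < p := Nat.cast_pos.2 (Fact.out : p.Prime).pos
  have h2 : (p : ℂ) * ∑ t : ZMod p, (gg (c * t + e) : ℂ) * gg (d * t + f) =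
      ∑ u : ZMod p, gh u * (ee (zC p) (u * c * f / d - u * e) * gh (-(u * c / d))) := by
    calc (p : ℂ) * ∑ t : ZMod p, (gg (c * t + e) : ℂ) * gg (d * t + f)
        = ∑ t : ZMod p, (∑ u, gh u * ee (zC p) (-(u * (c * t + e)))) * gg (d * t + f) := by
          rw [Finset.mul_sum]
          refine Finset.sum_congr rfl fun t _ => ?_
          rw [inversion, mul_assoc]
      _ = ∑ u : ZMod p, gh u * ∑ t, ee (zC p) (-(u * (c * t + e))) * gg (d * t + f) := by
          simp_rw [Finset.sum_mul, Finset.mul_sum]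
          rw [Finset.sum_comm]
          refine Finset.sum_congr rfl fun u _ => Finset.sum_congr rfl fun t _ => by ring
      _ = _ := by
          refine Finset.sum_congr rfl fun u _ => ?_
          congr 1
          unfold gh
          rw [Finset.mul_sum]
          let E : ZMod p ≃ ZMod p := (Equiv.mulLeft₀ d hd).trans (Equiv.addRight f)
          apply Fintype.sum_equiv E
          intro t
          have hE : E t = d * t + f := rfl
          rw [hE]
          have h3 : ee (zC p) (-(u * (c * t + e))) = ee (zC p) (u * c * f / d - u * e) *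
              ee (zC p) (-(u * c / d) * (d * t + f)) := by
            rw [← ee_add h1]
            congr 1
            field_simp
            ring
          rw [h3]; ring
  have h3 : (p : ℝ) * |∑ t : ZMod p, gg (c * t + e) * gg (d * t + f)| ≤
      (p : ℝ) * (p * ∑ s : ZMod p, lam (c * s) * lam (d * s)) := by
    have h4 := congrArg norm h2
    have h5 : ‖(p : ℂ) * ∑ t : ZMod p, (gg (c * t + e) : ℂ) * gg (d * t + f)‖ =
        (p : ℝ) * |∑ t : ZMod p, gg (c * t + e) * gg (d * t + f)| := by
      rw [norm_mul, Complex.norm_natCast]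
      congr 1
      rw [← Real.norm_eq_abs, ← Complex.norm_real]
      push_cast
      rfl
    rw [← h5, h4]
    refine (norm_sum_le _ _).trans ?_
    have h6 : ∑ u : ZMod p, ‖gh u * (ee (zC p) (u * c * f / d - u * e) * gh (-(u * c / d)))‖ =
        ∑ s : ZMod p, ‖gh (d * s)‖ * ‖gh (-(c * s))‖ := by
      symm
      apply Fintype.sum_equiv (Equiv.mulLeft₀ d hd)
      intro s
      have hE : (Equiv.mulLeft₀ d hd) s = d * s := rfl
      rw [norm_mul, norm_mul, norm_ee, one_mul, hE]
      congr 3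
      field_simp
    rw [h6, Finset.mul_sum, Finset.mul_sum]
    apply Finset.sum_le_sum
    intro s _
    rw [norm_gh, norm_gh]
    have h7 : lam (-(c * s)) = lam (c * s) := by
      unfold lam
      have h8 : 1 - ee (zC p) (-(c * s)) = -(ee (zC p) (-(c * s)) * (1 - ee (zC p) (c * s))) := by
        have := ee_mul_neg h1 (c * s)
        linear_combination (-1 : ℂ) * this
      rw [h8, norm_neg, norm_mul, norm_ee, one_mul]
    rw [h7]
    exact le_of_eq (by ring)
  exact le_of_mul_le_mul_left h3 hp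

/-- The sum of the `lam u`. -/
noncomputable def LL (p : ℕ) [Fact p.Prime] : ℝ := ∑ u : ZMod p, lam u

theorem LL_nonneg : 0 ≤ LL p := Finset.sum_nonneg fun _ _ => lam_nonneg _

theorem lam_le {u : ZMod p} (hu : u ≠ 0) :
    lam u ≤ (p : ℝ) / 4 * (1 / (u.val : ℝ) + 1 / ((p : ℝ) - u.val)) := by
  have hp : (0 : ℝ) < p := Nat.cast_pos.2 (Fact.out : p.Prime).pos
  have hu0 : 0 < u.val := Nat.pos_of_ne_zero (fun h => hu ((ZMod.val_eq_zero u).1 h))
  have hlt := ZMod.val_lt u
  set k := u.val with hk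
  have hk0 : (0 : ℝ) < k := Nat.cast_pos.2 hu0
  have hkp : (k : ℝ) < p := Nat.cast_lt.2 hlt
  have h1 : ‖1 - ee (zC p) u‖ = 2 * Real.sin (Real.pi * k / p) := by
    have h2 : ee (zC p) u = Complex.exp (Complex.I * ((2 * Real.pi * k / p : ℝ) : ℂ)) := by
      unfold ee zC
      rw [← Complex.exp_nat_mul]
      congr 1
      push_cast
      ring
    rw [h2, norm_sub_rev, Complex.norm_exp_I_mul_ofReal_sub_one]
    have h3 : 2 * Real.pi * k / p / 2 = Real.pi * k / p := by ring
    rw [h3, Real.norm_eq_abs, abs_of_nonneg]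
    apply mul_nonneg (by norm_num)
    apply Real.sin_nonneg_of_nonneg_of_le_pi
    · positivity
    · rw [div_le_iff₀ hp]
      have := Real.pi_pos
      nlinarith
  have hpk : (0 : ℝ) < p - k := by linarith
  unfold lam
  rw [h1]
  by_cases hc : 2 * (k : ℝ) ≤ p
  · have h2 : 2 / Real.pi * (Real.pi * k / p) ≤ Real.sin (Real.pi * k / p) := by
      apply Real.mul_le_sin
      · positivity
      · rw [div_le_div_iff₀ hp (by norm_num)]
        have := Real.pi_pos
        nlinarith
    have h3 : 2 / Real.pi * (Real.pi * k / p) = 2 * k / p := by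
      have := Real.pi_pos
      field_simp
    rw [h3] at h2
    have h4 : 1 / (2 * Real.sin (Real.pi * k / p)) ≤ 1 / (2 * (2 * k / p)) := by
      apply one_div_le_one_div_of_le
      · positivity
      · linarith
    refine h4.trans ?_
    have h5 : 1 / (2 * (2 * (k : ℝ) / p)) = p / 4 * (1 / k) := by field_simp; norm_num
    rw [h5]
    apply mul_le_mul_of_nonneg_left _ (by positivity)
    have : 0 < 1 / ((p : ℝ) - k) := by positivity
    linarith
  · push Not at hc
    have h0 : Real.sin (Real.pi * k / p) = Real.sin (Real.pi * (p - k) / p) := by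
      rw [← Real.sin_pi_sub]
      congr 1
      field_simp
    have h2 : 2 / Real.pi * (Real.pi * (p - k) / p) ≤ Real.sin (Real.pi * (p - k) / p) := by
      apply Real.mul_le_sin
      · positivity
      · rw [div_le_div_iff₀ hp (by norm_num)]
        have := Real.pi_pos
        nlinarith
    have h3 : 2 / Real.pi * (Real.pi * ((p : ℝ) - k) / p) = 2 * (p - k) / p := by
      have := Real.pi_pos
      field_simp
    rw [h3, ← h0] at h2
    have h4 : 1 / (2 * Real.sin (Real.pi * k / p)) ≤ 1 / (2 * (2 * (p - k) / p)) := by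
      apply one_div_le_one_div_of_le
      · positivity
      · linarith
    refine h4.trans ?_
    have h5 : 1 / (2 * (2 * ((p : ℝ) - k) / p)) = p / 4 * (1 / (p - k)) := by
      field_simp; norm_num
    rw [h5]
    apply mul_le_mul_of_nonneg_left _ (by positivity)
    have : 0 < 1 / (k : ℝ) := by positivity
    linarith

theorem LL_le : LL p ≤ p / 2 * (1 + Real.log p) := by
  have hp : (0 : ℝ) < p := Nat.cast_pos.2 (Fact.out : p.Prime).pos
  have hp1 := (Fact.out : p.Prime).one_le
  have h1 : LL p ≤ ∑ u : ZMod p, (if u = 0 then 0 else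
      (p : ℝ) / 4 * (1 / (u.val : ℝ) + 1 / ((p : ℝ) - u.val))) := by
    unfold LL
    apply Finset.sum_le_sum
    intro u _
    split_ifs with hu
    · rw [hu, lam_zero]
    · exact lam_le hu
  have h2 : ∑ u : ZMod p, (if u = 0 then 0 else
      (p : ℝ) / 4 * (1 / (u.val : ℝ) + 1 / ((p : ℝ) - u.val))) =
      ∑ k ∈ range p, (if k = 0 then 0 else (p : ℝ) / 4 * (1 / (k : ℝ) + 1 / ((p : ℝ) - k))) := by
    rw [← sum_val (fun k => if k = 0 then 0 else (p : ℝ) / 4 * (1 / (k : ℝ) + 1 / ((p : ℝ) - k)))]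
    refine Finset.sum_congr rfl fun u _ => ?_
    simp only [ZMod.val_eq_zero]
  have h3 : ∑ k ∈ range p, (if k = 0 then 0 else (p : ℝ) / 4 * (1 / (k : ℝ) + 1 / ((p : ℝ) - k))) =
      p / 4 * (2 * ∑ k ∈ range (p - 1), 1 / ((k : ℝ) + 1)) := by
    obtain ⟨q, rfl⟩ : ∃ q, p = q + 1 := ⟨p - 1, by omega⟩
    rw [Finset.sum_range_succ', if_pos rfl, add_zero, Nat.add_sub_cancel]
    have h4 : ∀ k ∈ range q, (if k + 1 = 0 then 0 else ((q + 1 : ℕ) : ℝ) / 4 *
        (1 / ((k + 1 : ℕ) : ℝ) + 1 / (((q + 1 : ℕ) : ℝ) - ((k + 1 : ℕ) : ℝ)))) =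
        ((q + 1 : ℕ) : ℝ) / 4 * (1 / ((k : ℝ) + 1) + 1 / ((q : ℝ) - k)) := by
      intro k _
      rw [if_neg (by omega)]
      push_cast
      congr 3
      ring
    rw [Finset.sum_congr rfl h4, ← Finset.mul_sum, Finset.sum_add_distrib, two_mul]
    congr 2
    rw [← Finset.sum_range_reflect]
    refine Finset.sum_congr rfl fun k hk => ?_
    have hk' := mem_range.1 hk
    rw [Nat.cast_sub (by omega), Nat.cast_sub (by omega)]
    push_cast
    congr 1
    ring
  have h4 : ∑ k ∈ range (p - 1), 1 / ((k : ℝ) + 1) ≤ 1 + Real.log p := by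
    have h5 := harmonic_le_one_add_log (p - 1)
    have h6 : ((harmonic (p - 1) : ℚ) : ℝ) = ∑ k ∈ range (p - 1), 1 / ((k : ℝ) + 1) := by
      unfold harmonic
      push_cast
      simp only [one_div]
    rw [h6] at h5
    refine h5.trans ?_
    have h7 : Real.log ((p - 1 : ℕ) : ℝ) ≤ Real.log p := by
      by_cases hq : p - 1 = 0
      · rw [hq, Nat.cast_zero, Real.log_zero]; exact Real.log_natCast_nonneg p
      · apply Real.log_le_log
        · exact Nat.cast_pos.2 (Nat.pos_of_ne_zero hq)
        · exact_mod_cast Nat.sub_le _ _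
    linarith
  rw [h2, h3] at h1
  refine h1.trans ?_
  have : (p : ℝ) / 4 * (2 * ∑ k ∈ range (p - 1), 1 / ((k : ℝ) + 1)) ≤
      p / 4 * (2 * (1 + Real.log p)) := by gcongr
  refine this.trans (le_of_eq (by ring))

end Pool.Agent.Helper74.SD
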