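import Mathlib

/-!
Two algebraic-geometry facts in coordinates:
* `injective_of_jacobian`: a polynomial map whose differential is onto at one point is dominant;
* `exists_generic`: the image of a dominant polynomial map contains a nonempty principal open set.
-/

open MvPolynomial

namespace Pool.Agent.Helper74.SD

variable {σ ι : Type*}

/-- chain rule -/
theorem pderiv_aeval [Fintype ι] (Φ : ι → MvPolynomial σ ℂ) (j : σ) (P : MvPolynomial ι ℂ) :
    pderiv j (aeval Φ P) = ∑ n, aeval Φ (pderiv n P) * pderiv j (Φ n) := by
  classical
  induction P using MvPolynomial.induction_on with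
  | C a => simp
  | add p q hp hq =>
    simp only [map_add, hp, hq, add_mul, Finset.sum_add_distrib]
  | mul_X p n hp =>
    rw [map_mul, aeval_X, Derivation.leibniz, hp]
    simp only [smul_eq_mul, Derivation.leibniz, pderiv_X, map_add, map_mul, aeval_X, add_mul,
      Finset.sum_add_distrib]
    congr 1
    · rw [Finset.sum_eq_single n]
      · simp
      · intro b _ hb
        simp [hb.symm]
      · simp
    · rw [Finset.mul_sum]
      refine Finset.sum_congr rfl fun m _ => by ring

theorem coeff_pderiv_aux (n : ι) (P : MvPolynomial ι ℂ) (m : ι →₀ ℕ) :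
    coeff m (pderiv n P) = coeff (m + Finsupp.single n 1) P * (m n + 1) := by
  classical
  induction P using MvPolynomial.induction_on' with
  | monomial u a =>
    rw [pderiv_monomial, coeff_monomial, coeff_monomial]
    by_cases h : u = m + Finsupp.single n 1
    · subst h
      simp
    · rw [if_neg h]
      by_cases h2 : u - Finsupp.single n 1 = m
      · rw [if_pos h2]
        have h0 : u n = 0 := by
          by_contra h0
          apply h
          rw [← h2]
          rw [tsub_add_cancel_of_le]
          rw [Finsupp.single_le_iff]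
          omega
        simp [h0]
      · rw [if_neg h2]; simp
  | add p q hp hq => rw [map_add, coeff_add, hp, hq, coeff_add, add_mul]

/-- the ideal of relations of a polynomial map with a point where the differential is onto is zero -/
theorem injective_of_jacobian [Fintype σ] [Fintype ι] (Φ : ι → MvPolynomial σ ℂ) (z0 : σ → ℂ)
    (h : ∀ φ : ι → ℂ, (∀ j, ∑ n, φ n * eval z0 (pderiv j (Φ n)) = 0) → φ = 0) :
    Function.Injective (aeval Φ : MvPolynomial ι ℂ →ₐ[ℂ] MvPolynomial σ ℂ) := by
  classical
  -- the partial derivatives of a relation are relations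
  have key : ∀ P : MvPolynomial ι ℂ, aeval Φ P = 0 → ∀ n, aeval Φ (pderiv n P) = 0 := by
    intro P hP
    set Q : ι → MvPolynomial σ ℂ := fun n => aeval Φ (pderiv n P) with hQ
    have h1 : ∀ j, ∑ n, Q n * pderiv j (Φ n) = 0 := by
      intro j
      rw [← pderiv_aeval, hP, map_zero]
    -- Jacobian at the point
    let J0 : Matrix ι σ ℂ := Matrix.of fun n j => eval z0 (pderiv j (Φ n))
    have hinj : Function.Injective J0.vecMulLinear := by
      rw [← LinearMap.ker_eq_bot, LinearMap.ker_eq_bot']
      intro φ hφ
      apply h
      intro j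
      have := congrFun hφ j
      simpa [Matrix.vecMul, dotProduct, J0] using this
    obtain ⟨g, hg⟩ := LinearMap.exists_leftInverse_of_injective J0.vecMulLinear
      (LinearMap.ker_eq_bot.2 hinj)
    let L : Matrix σ ι ℂ := Matrix.of fun j n => g (Pi.single j 1) n
    have hL : J0 * L = 1 := by
      ext n m
      have h2 := congrFun (LinearMap.congr_fun hg (Pi.single n 1)) m
      simp only [LinearMap.comp_apply, LinearMap.id_apply] at h2
      have h3 : J0.vecMulLinear (Pi.single n 1) = ∑ j, J0 n j • (Pi.single j (1:ℂ) : σ → ℂ) := by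
        ext j
        simp [Matrix.vecMulLinear, Finset.sum_apply, Pi.single_apply]
      rw [h3, map_sum] at h2
      simp only [map_smul, Finset.sum_apply, Pi.smul_apply, smul_eq_mul] at h2
      rw [Matrix.mul_apply, Matrix.one_apply]
      simp only [L, Matrix.of_apply]
      rw [h2, Pi.single_apply]
      by_cases hnm : n = m <;> simp [hnm, eq_comm]
    let J : Matrix ι σ (MvPolynomial σ ℂ) := Matrix.of fun n j => pderiv j (Φ n)
    let L' : Matrix σ ι (MvPolynomial σ ℂ) := Matrix.of fun j n => C (L j n)
    let M : Matrix ι ι (MvPolynomial σ ℂ) := J * L'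
    have hM : M.map (eval z0) = 1 := by
      have : M.map (eval z0) = J0 * L := by
        ext n m
        rw [Matrix.map_apply, Matrix.mul_apply]
        change (eval z0) ((J * L') n m) = _
        rw [Matrix.mul_apply, map_sum]
        refine Finset.sum_congr rfl fun x _ => ?_
        simp [J, J0, L']
      rw [this, hL]
    have hdet : M.det ≠ 0 := by
      intro h0
      have : (eval z0) M.det = 1 := by
        rw [RingHom.map_det]
        have : (eval z0).mapMatrix M = 1 := hM
        rw [this, Matrix.det_one]
      rw [h0, map_zero] at this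
      exact zero_ne_one this
    have hQM : Matrix.vecMul Q M = 0 := by
      have : Matrix.vecMul Q J = 0 := by
        ext1 j
        simpa [Matrix.vecMul, dotProduct, J] using h1 j
      simp only [M]
      rw [← Matrix.vecMul_vecMul, this, Matrix.zero_vecMul]
    have := Matrix.eq_zero_of_vecMul_eq_zero hdet hQM
    intro n
    exact congrFun this n
  -- induction on the total degree
  rw [injective_iff_map_eq_zero]
  intro P
  induction hd : P.totalDegree using Nat.strong_induction_on generalizing P with
  | _ d ih =>
    intro hP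
    by_contra hne
    -- all partial derivatives vanish
    have hder : ∀ n, pderiv n P = 0 := by
      intro n
      by_contra hn
      have hlt : (pderiv n P).totalDegree < d := by
        obtain ⟨m, hm1, hm2⟩ := Finset.exists_mem_eq_sup (pderiv n P).support
          (by rwa [Finset.nonempty_iff_ne_empty, Ne, MvPolynomial.support_eq_empty])
          (fun m => m.sum fun _ e => e)
        have h3 : (pderiv n P).totalDegree = m.sum fun _ e => e := hm2
        rw [h3]
        have h4 : m + Finsupp.single n 1 ∈ P.support := by
          rw [mem_support_iff]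
          intro h5
          rw [mem_support_iff, coeff_pderiv_aux, h5, zero_mul] at hm1
          exact hm1 rfl
        have h5 := le_totalDegree h4
        rw [Finsupp.sum_add_index' (by simp) (by simp), Finsupp.sum_single_index rfl, hd] at h5
        omega
      exact hn (ih _ hlt _ rfl (key P hP n))
    have hconst : P = C (coeff 0 P) := by
      ext m
      rw [coeff_C]
      by_cases hm : 0 = m
      · rw [if_pos hm, ← hm]
      · rw [if_neg hm]
        have : ∃ n, m n ≠ 0 := by
          by_contra hall
          push Not at hall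
          exact hm (by ext n; simp [hall n])
        obtain ⟨n, hn⟩ := this
        have h1 := coeff_pderiv_aux n P (m - Finsupp.single n 1)
        rw [hder n, coeff_zero, tsub_add_cancel_of_le (by
          rw [Finsupp.single_le_iff]; omega)] at h1
        rcases mul_eq_zero.1 h1.symm with h2 | h2
        · exact h2
        · exfalso
          have : (((m - Finsupp.single n 1 : ι →₀ ℕ) n : ℕ) : ℂ) + 1 ≠ 0 := by
            exact Nat.cast_add_one_ne_zero _
          exact this h2
    rw [hconst, aeval_C] at hP
    have : coeff 0 P = 0 := by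
      simpa using hP
    rw [this, C_0] at hconst
    exact hne hconst

/-- Chevalley: a dominant polynomial map hits every point of a nonempty principal open set -/
theorem exists_generic [Finite σ] [Finite ι] (Φ : ι → MvPolynomial σ ℂ)
    (h : Function.Injective (aeval Φ : MvPolynomial ι ℂ →ₐ[ℂ] MvPolynomial σ ℂ)) :
    ∃ P : MvPolynomial ι ℂ, P ≠ 0 ∧ ∀ y : ι → ℂ, eval y P ≠ 0 →
      ∃ z : σ → ℂ, ∀ n, eval z (Φ n) = y n := by
  classical
  let f : MvPolynomial ι ℂ →+* MvPolynomial σ ℂ := (aeval Φ : MvPolynomial ι ℂ →ₐ[ℂ] MvPolynomial σ ℂ).toRingHom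
  have hft : f.FiniteType := by
    have h1 : (f.comp (C : ℂ →+* MvPolynomial ι ℂ)).FiniteType := by
      have : f.comp (C : ℂ →+* MvPolynomial ι ℂ) = algebraMap ℂ (MvPolynomial σ ℂ) := by
        ext a
        simp [f]
      rw [this]
      exact RingHom.finiteType_algebraMap.2 inferInstance
    exact RingHom.FiniteType.of_comp_finiteType h1
  have hfp : f.FinitePresentation := RingHom.FinitePresentation.of_finiteType.1 hft
  have hcons := PrimeSpectrum.isConstructible_range_comap hfp
  obtain ⟨S, hS⟩ := PrimeSpectrum.exists_constructibleSetData_iff.2 hcons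
  have hbot : (⊥ : PrimeSpectrum (MvPolynomial ι ℂ)) ∈ S.toSet := by
    rw [hS]
    refine ⟨⊥, ?_⟩
    ext x
    simp only [PrimeSpectrum.comap_asIdeal, Ideal.mem_comap]
    change f x ∈ (⊥ : Ideal _) ↔ x ∈ (⊥ : Ideal _)
    rw [Ideal.mem_bot, Ideal.mem_bot]
    constructor
    · intro hx
      exact (injective_iff_map_eq_zero _).1 h x hx
    · rintro rfl; simp
  simp only [PrimeSpectrum.ConstructibleSetData.toSet, Set.mem_iUnion] at hbot
  obtain ⟨C0, hC0, hC1⟩ := hbot
  have hg : ∀ i, C0.g i = 0 := by
    intro i
    have := hC1.1 (Set.mem_range_self i)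
    exact this
  have hf0 : C0.f ≠ 0 := by
    intro h0
    apply hC1.2
    intro x hx
    rw [Set.mem_singleton_iff] at hx
    rw [hx, h0]
    exact Ideal.zero_mem _
  refine ⟨C0.f, hf0, fun y hy => ?_⟩
  let m : PrimeSpectrum (MvPolynomial ι ℂ) := ⟨RingHom.ker (eval y), RingHom.ker_isPrime _⟩
  have hmax : m.asIdeal.IsMaximal := by
    apply RingHom.ker_isMaximal_of_surjective
    intro c
    exact ⟨C c, by simp⟩
  have hm : m ∈ Set.range (PrimeSpectrum.comap f) := by
    rw [← hS]
    simp only [PrimeSpectrum.ConstructibleSetData.toSet, Set.mem_iUnion]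
    refine ⟨C0, hC0, ?_, ?_⟩
    · rintro x ⟨i, rfl⟩
      rw [hg i]
      exact Ideal.zero_mem _
    · intro hx
      apply hy
      have := hx (Set.mem_singleton _)
      exact this
  obtain ⟨Q, hQ⟩ := hm
  obtain ⟨M, hM, hQM⟩ := Ideal.exists_le_maximal Q.asIdeal Q.2.ne_top
  have hcomap : Ideal.comap f M = m.asIdeal := by
    symm
    apply hmax.eq_of_le
    · exact Ideal.comap_ne_top _ hM.ne_top
    · rw [← hQ]
      exact Ideal.comap_mono hQM
  obtain ⟨z, hz⟩ := MvPolynomial.isMaximal_iff_eq_vanishingIdeal_singleton.1 hM
  refine ⟨z, fun n => ?_⟩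
  have h1 : X n - C (y n) ∈ Ideal.comap f M := by
    rw [hcomap]
    change eval y (X n - C (y n)) = 0
    simp
  rw [Ideal.mem_comap, hz, mem_vanishingIdeal_singleton_iff] at h1
  simp only [f, AlgHom.toRingHom_eq_coe, RingHom.coe_coe, map_sub, aeval_X] at h1
  have h2 : aeval Φ (C (y n) : MvPolynomial ι ℂ) = C (y n) := by simp
  rw [h2] at h1
  simpa [sub_eq_zero] using h1

end Pool.Agent.Helper74.SD
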