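import Pool.Agent.Helper74.SD.Reduce

/-!
The Heisenberg type matrices `∑ x_j W_j` of prime size, over a ring with a `p`-th root of unity.
-/

namespace Pool.Agent.Helper74.SD

open MvPolynomial Finset

section scl
variable {R : Type} [CommRing R]

/-- The substitution `X j ↦ t j X j`. -/
noncomputable def scl (t : Fin 4 → R) : MvPolynomial (Fin 4) R →ₐ[R] MvPolynomial (Fin 4) R :=
  aeval fun j => C (t j) * X j

/-- `∏ t j ^ n j` -/
def tpow (t : Fin 4 → R) (n : Fin 4 →₀ ℕ) : R := ∏ j, t j ^ n j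

theorem scl_monomial (t : Fin 4 → R) (m : Fin 4 →₀ ℕ) (r : R) :
    scl t (monomial m r) = monomial m (tpow t m * r) := by
  unfold scl
  rw [aeval_monomial, Finsupp.prod_fintype _ _ (by simp)]
  simp only [mul_pow, Finset.prod_mul_distrib]
  have h1 : (∏ x : Fin 4, (X x : MvPolynomial (Fin 4) R) ^ m x) = monomial m 1 := by
    rw [monomial_eq, C_1, one_mul, Finsupp.prod_fintype _ _ (by simp)]
  have h2 : (∏ x : Fin 4, (C (t x) : MvPolynomial (Fin 4) R) ^ m x) = C (tpow t m) := by
    unfold tpow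
    rw [map_prod]
    simp
  rw [h1, h2, algebraMap_eq, C_mul_monomial, C_mul_monomial, mul_one, mul_comm]

theorem coeff_scl (t : Fin 4 → R) (f : MvPolynomial (Fin 4) R) (n : Fin 4 →₀ ℕ) :
    coeff n (scl t f) = tpow t n * coeff n f := by
  classical
  induction f using MvPolynomial.induction_on' with
  | monomial u a =>
    rw [scl_monomial, coeff_monomial, coeff_monomial]
    split_ifs with h
    · rw [h]
    · rw [mul_zero]
  | add p q hp hq => rw [map_add, coeff_add, coeff_add, hp, hq, mul_add]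

theorem scl_X (t : Fin 4 → R) (j : Fin 4) : scl t (X j) = C (t j) * X j := by
  unfold scl; rw [aeval_X]

theorem scl_C (t : Fin 4 → R) (r : R) : scl t (C r) = C r := by
  unfold scl; rw [aeval_C]; rfl

end scl

theorem adjugate_conj {κ B : Type*} [Fintype κ] [DecidableEq κ] [CommRing B]
    (P Q M : Matrix κ κ B) (h : P * Q = 1) :
    (P * M * Q).adjugate = P * M.adjugate * Q := by
  have h' : Q * P = 1 := mul_eq_one_comm.1 h
  have hP : P.adjugate = P.det • Q := by
    calc P.adjugate = P.adjugate * (P * Q) := by rw [h, mul_one]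
      _ = P.adjugate * P * Q := by rw [mul_assoc]
      _ = P.det • Q := by rw [Matrix.adjugate_mul, Matrix.smul_mul, one_mul]
  have hQ : Q.adjugate = Q.det • P := by
    calc Q.adjugate = Q.adjugate * (Q * P) := by rw [h', mul_one]
      _ = Q.adjugate * Q * P := by rw [mul_assoc]
      _ = Q.det • P := by rw [Matrix.adjugate_mul, Matrix.smul_mul, one_mul]
  have hdet : Q.det * P.det = 1 := by
    rw [← Matrix.det_mul, h', Matrix.det_one]
  rw [Matrix.adjugate_mul_distrib, Matrix.adjugate_mul_distrib, hP, hQ, Matrix.mul_smul,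
    Matrix.mul_smul, Matrix.smul_mul, smul_smul, mul_comm P.det, hdet, one_smul, mul_assoc]

section
variable {p : ℕ} [Fact p.Prime] {R : Type} [CommRing R]

/-- `ζ ^ x` for `x ∈ ℤ/p` -/
def ee (ζ : R) (x : ZMod p) : R := ζ ^ x.val

theorem ee_add {ζ : R} (h : ζ ^ p = 1) (x y : ZMod p) : ee ζ (x + y) = ee ζ x * ee ζ y := by
  unfold ee
  rw [ZMod.val_add, ← pow_add, ← pow_eq_pow_mod _ h]

theorem ee_zero (ζ : R) : ee ζ (0 : ZMod p) = 1 := by
  unfold ee; rw [ZMod.val_zero, pow_zero]

theorem ee_mul_neg {ζ : R} (h : ζ ^ p = 1) (x : ZMod p) : ee ζ x * ee ζ (-x) = 1 := by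
  rw [← ee_add h, add_neg_cancel, ee_zero]

theorem ee_nsmul {ζ : R} (h : ζ ^ p = 1) (x : ZMod p) (n : ℕ) : ee ζ ((n : ZMod p) * x) =
    ee ζ x ^ n := by
  induction n with
  | zero => simp [ee_zero]
  | succ n ih => rw [Nat.cast_succ, add_mul, one_mul, ee_add h, ih, pow_succ]

/-- The weight of an exponent. -/
def wt (a : Fin 4 → ZMod p) (n : Fin 4 →₀ ℕ) : ZMod p := ∑ j, (n j : ZMod p) * a j

theorem ee_sum {ζ : R} (h : ζ ^ p = 1) {ι : Type*} (s : Finset ι) (f : ι → ZMod p) :
    ee ζ (∑ j ∈ s, f j) = ∏ j ∈ s, ee ζ (f j) := by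
  classical
  induction s using Finset.induction_on with
  | empty => simp [ee_zero]
  | insert a s ha ih => rw [Finset.sum_insert ha, Finset.prod_insert ha, ee_add h, ih]

theorem tpow_ee {ζ : R} (h : ζ ^ p = 1) (a : Fin 4 → ZMod p) (n : Fin 4 →₀ ℕ) :
    tpow (fun j => ee ζ (a j)) n = ee ζ (wt a n) := by
  unfold tpow wt
  rw [ee_sum h]
  refine Finset.prod_congr rfl fun j _ => ?_
  rw [ee_nsmul h]

/-- The coefficients of the Heisenberg type matrix. -/
def hc (ζ : R) (a b : Fin 4 → ZMod p) (i i' : ZMod p) (j : Fin 4) : R :=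
  if i' = i + a j then ee ζ (b j * i) else 0

/-- The Heisenberg type matrix. -/
noncomputable def HM (ζ : R) (a b : Fin 4 → ZMod p) :
    Matrix (ZMod p) (ZMod p) (MvPolynomial (Fin 4) R) := LM (hc ζ a b)

theorem HM_apply (ζ : R) (a b : Fin 4 → ZMod p) (i i' : ZMod p) :
    HM ζ a b i i' = ∑ j, C (hc ζ a b i i' j) * X j := rfl

/-- Torus action on matrices of linear forms. -/
theorem scl_LM {κ : Type} (t : Fin 4 → R) (c : κ → κ → Fin 4 → R) (i i' : κ) :
    scl t (LM c i i') = LM (fun i i' j => c i i' j * t j) i i' := by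
  simp only [LM, Matrix.of_apply, map_sum, map_mul, scl_C, scl_X]
  refine Finset.sum_congr rfl fun j _ => by ring

theorem adjugate_scl {κ : Type} [Fintype κ] [DecidableEq κ] (t : Fin 4 → R)
    (c : κ → κ → Fin 4 → R) (i i' : κ) :
    (LM (fun i i' j => c i i' j * t j)).adjugate i i' = scl t ((LM c).adjugate i i') := by
  have h1 : LM (fun i i' j => c i i' j * t j) = (scl t).mapMatrix (LM c) := by
    ext1 i i'
    exact (scl_LM t c i i').symm
  rw [h1, ← AlgHom.map_adjugate]
  rfl

/-- shift invariance -/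
theorem HM_shift {ζ : R} (h : ζ ^ p = 1) (a b : Fin 4 → ZMod p) (t i i' : ZMod p)
    (n : Fin 4 →₀ ℕ) (j : Fin 4) :
    ee ζ (b j * t) * coeff n (X j * (HM ζ a b).adjugate (i + t) (i' + t)) =
      ee ζ (wt b n * t) * coeff n (X j * (HM ζ a b).adjugate i i') := by
  have h1 : (LM (fun i i' j => hc ζ a b i i' j * ee ζ (b j * t))) =
      (HM ζ a b).submatrix (Equiv.addRight t) (Equiv.addRight t) := by
    ext1 i i'
    simp only [LM, HM, Matrix.of_apply, Matrix.submatrix_apply, Equiv.coe_addRight]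
    refine Finset.sum_congr rfl fun j _ => ?_
    congr 2
    unfold hc
    have h2 : i' + t = i + t + a j ↔ i' = i + a j := by
      constructor
      · intro h3; have := add_right_cancel (b := t) (a := i') (c := i + a j) (by rw [h3]; ring)
        exact this
      · rintro rfl; ring
    simp only [h2]
    split_ifs
    · rw [← ee_add h]; congr 1; ring
    · rw [zero_mul]
  have h2 := adjugate_scl (fun j => ee ζ (b j * t)) (hc ζ a b) i i'
  rw [h1, Matrix.adjugate_submatrix_equiv_self] at h2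
  have h3 : scl (fun j => ee ζ (b j * t)) (X j * (HM ζ a b).adjugate i i') =
      C (ee ζ (b j * t)) * (X j * (HM ζ a b).adjugate (i + t) (i' + t)) := by
    rw [map_mul, scl_X]
    simp only [Matrix.submatrix_apply, Equiv.coe_addRight] at h2
    rw [h2]
    unfold HM
    ring
  have h4 := congrArg (coeff n) h3
  rw [coeff_scl, coeff_C_mul] at h4
  rw [← h4, show (fun j => ee ζ (b j * t)) = (fun j => ee ζ ((fun j => b j * t) j)) from rfl,
    tpow_ee h]
  congr 2
  unfold wt
  rw [Finset.sum_mul]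
  refine Finset.sum_congr rfl fun j _ => by ring

/-- grading -/
theorem HM_grade [IsDomain R] {ζ : R} (hζ : IsPrimitiveRoot ζ p) (a b : Fin 4 → ZMod p)
    (i i' : ZMod p) (n : Fin 4 →₀ ℕ) (j : Fin 4) (hne : i' - i ≠ wt a n - a j) :
    coeff n (X j * (HM ζ a b).adjugate i i') = 0 := by
  have h := hζ.pow_eq_one
  let Pm : Matrix (ZMod p) (ZMod p) (MvPolynomial (Fin 4) R) :=
    Matrix.diagonal fun i => C (ee ζ (-i))
  let Qm : Matrix (ZMod p) (ZMod p) (MvPolynomial (Fin 4) R) :=
    Matrix.diagonal fun i => C (ee ζ i)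
  have hPQ : Pm * Qm = 1 := by
    simp only [Pm, Qm]
    rw [Matrix.diagonal_mul_diagonal]
    simp_rw [← C_mul, mul_comm (ee ζ (-_)), ee_mul_neg h, C_1]
    exact Matrix.diagonal_one
  have h1 : (LM (fun i i' j => hc ζ a b i i' j * ee ζ (a j))) = Pm * HM ζ a b * Qm := by
    ext1 i i'
    simp only [Pm, Qm]
    rw [Matrix.mul_diagonal, Matrix.diagonal_mul]
    simp only [LM, HM, Matrix.of_apply]
    rw [Finset.mul_sum, Finset.sum_mul]
    refine Finset.sum_congr rfl fun j _ => ?_
    unfold hc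
    split_ifs with h2
    · have h3 : ee ζ (b j * i) * ee ζ (a j) = ee ζ (-i) * ee ζ (b j * i) * ee ζ i' := by
        rw [← ee_add h, ← ee_add h, ← ee_add h, h2]; congr 1; ring
      rw [h3, C_mul, C_mul]; ring
    · simp
  have h2 := adjugate_scl (fun j => ee ζ (a j)) (hc ζ a b) i i'
  rw [h1, adjugate_conj _ _ _ hPQ] at h2
  simp only [Pm, Qm] at h2
  rw [Matrix.mul_diagonal, Matrix.diagonal_mul] at h2
  have h3 : scl (fun j => ee ζ (a j)) (X j * (HM ζ a b).adjugate i i') =
      C (ee ζ (a j) * ee ζ (-i) * ee ζ i') * (X j * (HM ζ a b).adjugate i i') := by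
    rw [map_mul, scl_X]
    have h4 : scl (fun j => ee ζ (a j)) ((HM ζ a b).adjugate i i') =
      C (ee ζ (-i)) * (HM ζ a b).adjugate i i' * C (ee ζ i') := h2.symm
    rw [h4, C_mul, C_mul]
    ring
  have h4 := congrArg (coeff n) h3
  rw [coeff_scl, coeff_C_mul, tpow_ee h, ← ee_add h, ← ee_add h] at h4
  have h5 : (ee ζ (wt a n) - ee ζ (a j + -i + i')) *
      coeff n (X j * (HM ζ a b).adjugate i i') = 0 := by
    rw [sub_mul, h4, sub_self]
  rcases mul_eq_zero.1 h5 with h6 | h6
  · exfalso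
    rw [sub_eq_zero] at h6
    unfold ee at h6
    have h7 := hζ.pow_inj (ZMod.val_lt _) (ZMod.val_lt _) h6
    have h8 := ZMod.val_injective p h7
    apply hne
    rw [h8]; ring
  · exact h6

/-- The coefficients `w_j(n)`. -/
noncomputable def wj (ζ : R) (a b : Fin 4 → ZMod p) (j : Fin 4) (n : Fin 4 →₀ ℕ) : R :=
  coeff n (X j * (HM ζ a b).adjugate 0 (wt a n - a j))

/-- All entries in terms of `wj`. -/
theorem HM_coeff [IsDomain R] {ζ : R} (hζ : IsPrimitiveRoot ζ p) (a b : Fin 4 → ZMod p)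
    (i i' : ZMod p) (n : Fin 4 →₀ ℕ) (j : Fin 4) :
    coeff n (X j * (HM ζ a b).adjugate i i') =
      if i' - i = wt a n - a j then ee ζ ((wt b n - b j) * i) * wj ζ a b j n else 0 := by
  have h := hζ.pow_eq_one
  split_ifs with h1
  · have h2 := HM_shift h a b i 0 (i' - i) n j
    rw [zero_add, sub_add_cancel, h1] at h2
    unfold wj
    have h3 := congrArg (fun x => ee ζ (-(b j * i)) * x) h2
    beta_reduce at h3
    rw [← mul_assoc, ← mul_assoc, mul_comm (ee ζ (-(b j * i))) (ee ζ (b j * i)),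
      ee_mul_neg h, one_mul, ← ee_add h] at h3
    rw [h3]
    congr 2
    ring
  · exact HM_grade hζ a b i i' n j h1

end

end Pool.Agent.Helper74.SD
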