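import Pool.Agent.Helper74.SD.Count

/-!
The main theorems.
-/

namespace Pool.Agent.Helper74.SD

open Finset

theorem IsSumOfDets.mono {k s s' : ℕ} (hk : 1 ≤ k) (h : s ≤ s') {f : MvPolynomial (Fin 4) ℂ}
    (hf : IsSumOfDets k s f) : IsSumOfDets k s' f := by
  obtain ⟨G, hG, hfG⟩ := hf
  refine ⟨fun i => if hi : (i : ℕ) < s then G ⟨i, hi⟩ else 0, ?_, ?_⟩
  · intro i a b
    beta_reduce
    split_ifs with hi
    · exact hG _ a b
    · rw [Matrix.zero_apply]
      exact MvPolynomial.isHomogeneous_zero _ _ _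
  · rw [hfG]
    have hne : Nonempty (Fin k) := ⟨⟨0, hk⟩⟩
    have h1 : ∀ i : Fin s', ¬ (i : ℕ) < s →
        (if hi : (i : ℕ) < s then G ⟨i, hi⟩ else 0).det = 0 := by
      intro i hi
      rw [dif_neg hi]
      exact Matrix.det_zero
    rw [← Finset.sum_subset (Finset.subset_univ (Finset.univ.map (Fin.castLEEmb h)))
      (fun i _ hi => h1 i (fun hlt => hi (Finset.mem_map.2 ⟨⟨i, hlt⟩, mem_univ _, rfl⟩))),
      Finset.sum_map]
    refine Finset.sum_congr rfl fun i _ => ?_
    have h2 : ((Fin.castLEEmb h i : Fin s') : ℕ) < s := i.2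
    rw [dif_pos h2]
    rfl

theorem GeneralIsSumOfDets.mono {k s s' : ℕ} (hk : 1 ≤ k) (h : s ≤ s')
    (hg : GeneralIsSumOfDets k s) : GeneralIsSumOfDets k s' := by
  obtain ⟨P, h1, h2⟩ := hg
  exact ⟨P, h1, fun f hf hP => (h2 f hf hP).mono hk h⟩

variable {p : ℕ} [Fact p.Prime]

theorem EE_zero (r : ℕ) (x y α β : ZMod p) : EE r (av x) (bv y) 0 α β = NN x y α β := by
  unfold EE NN
  apply Finset.filter_congr
  intro n _
  simp

theorem EE_card (r : ℕ) (x y α β : ZMod p) (hxy : x + y - 1 ≠ 0) (c : Fin 4) (hc : c ≠ 0) :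
    (EE r (av x) (bv y) c α β).card ≤ r + 4 := by
  classical
  have hsub : ∀ n ∈ EE r (av x) (bv y) c α β, n ∈ NN x y α β ∧ n 0 < r := by
    intro n hn
    rw [EE, mem_filter] at hn
    rw [NN, mem_filter]
    exact ⟨⟨hn.1, hn.2.1, hn.2.2.1⟩, hn.2.2.2 0 (Fin.pos_of_ne_zero hc)⟩
  have h1 := Finset.card_filter_add_card_filter_not (s := EE r (av x) (bv y) c α β)
    (fun n => ∀ j, n j < p)
  have h2 : ((EE r (av x) (bv y) c α β).filter fun n => ¬ ∀ j, n j < p).card ≤ 4 := by
    refine (Finset.card_le_card ?_).trans (card_vertex x y α β)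
    intro n hn
    rw [mem_filter] at hn ⊢
    exact ⟨(hsub n hn.1).1, hn.2⟩
  have h3 : ((EE r (av x) (bv y) c α β).filter fun n => ∀ j, n j < p).card ≤ r := by
    have : ((EE r (av x) (bv y) c α β).filter fun n => ∀ j, n j < p).card ≤ (range r).card := by
      apply Finset.card_le_card_of_injOn (fun n => n 0)
      · intro n hn
        simp only [Finset.coe_filter, Set.mem_ofPred_eq] at hn
        simp only [Finset.coe_range, Set.mem_Iio]
        exact (hsub n hn.1).2
      · intro n hn n' hn' h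
        simp only [Finset.coe_filter, Set.mem_ofPred_eq] at hn hn'
        beta_reduce at h
        have hr := fun j => res (hsub n hn.1).1 j
        have hr' := fun j => res (hsub n' hn'.1).1 j
        have h4 : ((n 3 : ℕ) : ZMod p) = n' 3 := by
          have e1 := hr 0
          have e2 := hr' 0
          rw [h, e2] at e1
          simp only [cf, ef, Matrix.cons_val_zero] at e1
          have e3 : (x + y - 1) * ((n' 3 : ℕ) : ZMod p) = (x + y - 1) * ((n 3 : ℕ) : ZMod p) :=
            add_right_cancel e1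
          exact (mul_left_cancel₀ hxy e3).symm
        ext j
        have e1 := hr j
        have e2 := hr' j
        rw [h4, ← e2] at e1
        have h5 := (ZMod.natCast_eq_natCast_iff _ _ _).1 e1
        exact Nat.ModEq.eq_of_lt_of_lt h5 (hn.2 j) (hn'.2 j)
    rwa [card_range] at this
  omega

/-- Prime degrees. -/
theorem prime_degree {k s : ℕ} (hk : k.Prime)
    (hs : (k : ℝ) / 12 + (1 + Real.log k) ^ 2 + 3 ≤ s) : GeneralIsSumOfDets k s := by
  have : Fact k.Prime := ⟨hk⟩
  obtain ⟨x, y, hxy, hN⟩ := count_main k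
  have h1 := core 0 (av x) (bv y) (fun c => if c = 0 then s else 0) (by omega) (by
    intro c α β
    by_cases hc : c = 0
    · subst hc
      rw [if_pos rfl, EE_zero]
      have h2 := hN α β
      have h3 : ((NN x y α β).card : ℝ) ≤ ((2 * s : ℕ) : ℝ) := by
        push_cast; linarith
      exact_mod_cast h3
    · rw [if_neg hc, mul_zero, Nat.le_zero, Finset.card_eq_zero]
      unfold EE
      rw [Finset.filter_eq_empty_iff]
      rintro n - ⟨-, -, h2⟩
      exact absurd (h2 0 (Fin.pos_of_ne_zero hc)) (Nat.not_lt_zero _))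
  rw [Finset.sum_ite_eq' Finset.univ (0 : Fin 4)] at h1
  simpa using h1

/-- Degrees near a prime. -/
theorem near_prime {p k s : ℕ} (hp : p.Prime) (hpk : p ≤ k) (hr : 3 * (k - p) ≤ p + 3)
    (hs : (k : ℝ) / 12 + 3 / 2 * ((k : ℝ) - p) + (1 + Real.log k) ^ 2 + 12 ≤ s) :
    GeneralIsSumOfDets k s := by
  have : Fact p.Prime := ⟨hp⟩
  obtain ⟨r, rfl⟩ := Nat.exists_eq_add_of_le hpk
  rw [Nat.add_sub_cancel_left] at hr
  obtain ⟨x, y, hxy, hN⟩ := count_main p
  set B : ℝ := p / 12 + (1 + Real.log p) ^ 2 + 3 with hB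
  have hlog : 0 ≤ Real.log p := Real.log_natCast_nonneg p
  have hB0 : 0 ≤ B := by positivity
  have h1 := core r (av x) (bv y) (fun c => if c = 0 then ⌈B⌉₊ else (r + 5) / 2) hr (by
    intro c α β
    by_cases hc : c = 0
    · subst hc
      rw [if_pos rfl, EE_zero]
      have h2 := hN α β
      have h4 := Nat.le_ceil B
      have h3 : ((NN x y α β).card : ℝ) ≤ ((2 * ⌈B⌉₊ : ℕ) : ℝ) := by
        push_cast; linarith
      exact_mod_cast h3
    · rw [if_neg hc]
      have := EE_card r x y α β hxy c hc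
      omega)
  apply GeneralIsSumOfDets.mono _ _ h1
  · have := hp.one_le; omega
  · rw [Fin.sum_univ_four, if_pos rfl, if_neg (by decide), if_neg (by decide), if_neg (by decide)]
    have h2 : (((r + 5) / 2 : ℕ) : ℝ) ≤ ((r : ℝ) + 5) / 2 := by
      have := Nat.cast_div_le (α := ℝ) (m := r + 5) (n := 2)
      push_cast at this
      exact this
    have h3 : (⌈B⌉₊ : ℝ) < B + 1 := Nat.ceil_lt_add_one hB0
    have h4 : Real.log p ≤ Real.log ((p + r : ℕ) : ℝ) := by
      apply Real.log_le_log (Nat.cast_pos.2 hp.pos)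
      exact_mod_cast Nat.le_add_right p r
    have h5 : (1 + Real.log p) ^ 2 ≤ (1 + Real.log ((p + r : ℕ) : ℝ)) ^ 2 := by gcongr
    have h6 : ((⌈B⌉₊ + (r + 5) / 2 + (r + 5) / 2 + (r + 5) / 2 : ℕ) : ℝ) ≤ s := by
      push_cast [-Nat.cast_div] at hs h2 h5 ⊢
      have hr0 : (0 : ℝ) ≤ r := Nat.cast_nonneg r
      linarith
    exact_mod_cast h6

/-- The asymptotic statement; the hypothesis is a classical consequence of the prime number
theorem. -/
theorem asymptotic
    (hprimes : ∀ ε : ℝ, 0 < ε → ∃ K : ℕ, ∀ k : ℕ, K ≤ k →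
      ∃ p : ℕ, p.Prime ∧ p ≤ k ∧ (1 - ε) * (k : ℝ) ≤ p) :
    ∀ δ : ℝ, 0 < δ → ∃ K : ℕ, ∀ k s : ℕ, K ≤ k → (1 / 12 + δ) * (k : ℝ) ≤ s →
      GeneralIsSumOfDets k s := by
  intro δ hδ
  set ε : ℝ := min (δ / 3) (1 / 4) with hε
  have hε0 : 0 < ε := by positivity
  obtain ⟨K1, hK1⟩ := hprimes ε hε0
  -- the logarithm is small
  have h1 : ∃ K2 : ℕ, ∀ k : ℕ, K2 ≤ k → (1 + Real.log k) ^ 2 + 12 ≤ δ / 2 * k := by
    have h2 : Filter.Tendsto (fun x : ℝ => ((1 + Real.log x) ^ 2 + 12) / x) Filter.atTop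
        (nhds 0) := by
      have e1 : Filter.Tendsto (fun x : ℝ => Real.log x ^ 2 / x) Filter.atTop (nhds 0) := by
        have := Real.tendsto_pow_log_div_mul_add_atTop 1 0 2 one_ne_zero
        simpa using this
      have e2 : Filter.Tendsto (fun x : ℝ => Real.log x / x) Filter.atTop (nhds 0) := by
        have := Real.tendsto_pow_log_div_mul_add_atTop 1 0 1 one_ne_zero
        simpa using this
      have e3 : Filter.Tendsto (fun x : ℝ => 13 / x) Filter.atTop (nhds 0) :=
        Filter.Tendsto.const_div_atTop Filter.tendsto_id 13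
      have e4 := (e1.add (e2.const_mul 2)).add e3
      rw [mul_zero, add_zero, add_zero] at e4
      refine e4.congr' ?_
      filter_upwards [Filter.eventually_gt_atTop 0] with x hx
      field_simp
      ring
    have h3 := (h2.comp tendsto_natCast_atTop_atTop).eventually (gt_mem_nhds (half_pos hδ))
    obtain ⟨K2, hK2⟩ := Filter.eventually_atTop.1 h3
    refine ⟨max K2 1, fun k hk => ?_⟩
    have h4 := hK2 k (le_of_max_le_left hk)
    have hk0 : (0 : ℝ) < k := Nat.cast_pos.2 (le_of_max_le_right hk)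
    simp only [Function.comp_apply] at h4
    rw [div_lt_iff₀ hk0] at h4
    exact h4.le
  obtain ⟨K2, hK2⟩ := h1
  refine ⟨max K1 K2, fun k s hk hs => ?_⟩
  obtain ⟨p, hp, hpk, hple⟩ := hK1 k (le_of_max_le_left hk)
  have h2 := hK2 k (le_of_max_le_right hk)
  have hk0 : (0 : ℝ) ≤ k := Nat.cast_nonneg k
  have hε1 : ε ≤ δ / 3 := min_le_left _ _
  have hε2 : ε ≤ 1 / 4 := min_le_right _ _
  have h3 : (k : ℝ) - p ≤ ε * k := by linarith
  apply near_prime hp hpk
  · have h4 : (k : ℝ) - p ≤ 1 / 4 * k := h3.trans (mul_le_mul_of_nonneg_right hε2 hk0)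
    have h5 : 3 * ((k : ℝ) - p) ≤ p := by linarith
    have h6 : 3 * ((k - p : ℕ) : ℝ) ≤ p := by
      rw [Nat.cast_sub hpk]; exact h5
    have h7 : 3 * (k - p) ≤ p := by exact_mod_cast h6
    omega
  · have h4 : (k : ℝ) - p ≤ δ / 3 * k := h3.trans (mul_le_mul_of_nonneg_right hε1 hk0)
    refine le_trans ?_ hs
    linarith

end Pool.Agent.Helper74.SD
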