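import Pool.Agent.Helper74.SD.Heis

/-!
The Heisenberg type matrices modulo `1 - ζ`.
-/

namespace Pool.Agent.Helper74.SD

open MvPolynomial Finset
open scoped Nat

variable {p : ℕ} [Fact p.Prime]

/-- product of factorials -/
def fct (n : Fin 4 →₀ ℕ) : ℕ := ∏ j, (n j)!

theorem fct_sub {n : Fin 4 →₀ ℕ} {j : Fin 4} (h : n j ≠ 0) :
    fct n = n j * fct (n - Finsupp.single j 1) := by
  unfold fct
  rw [← Finset.mul_prod_erase _ _ (Finset.mem_univ j),
    ← Finset.mul_prod_erase _ (fun i => ((n - Finsupp.single j 1 : Fin 4 →₀ ℕ) i)!)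
      (Finset.mem_univ j), ← mul_assoc]
  congr 1
  · have h1 : (n - Finsupp.single j 1 : Fin 4 →₀ ℕ) j = n j - 1 := by simp
    rw [h1, Nat.mul_factorial_pred h]
  · refine Finset.prod_congr rfl fun i hi => ?_
    have h1 : (n - Finsupp.single j 1 : Fin 4 →₀ ℕ) i = n i := by
      simp [(Finset.ne_of_mem_erase hi).symm]
    rw [h1]

theorem wt_sub {n : Fin 4 →₀ ℕ} {j : Fin 4} (h : n j ≠ 0) (a : Fin 4 → ZMod p) :
    wt a (n - Finsupp.single j 1) = wt a n - a j := by
  unfold wt
  rw [← Finset.add_sum_erase _ _ (Finset.mem_univ j),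
    ← Finset.add_sum_erase _ (fun i => (n i : ZMod p) * a i) (Finset.mem_univ j)]
  have h1 : (n - Finsupp.single j 1 : Fin 4 →₀ ℕ) j = n j - 1 := by simp
  have h2 : ∀ i ∈ Finset.univ.erase j, (((n - Finsupp.single j 1 : Fin 4 →₀ ℕ) i : ℕ) : ZMod p)
      * a i = (n i : ZMod p) * a i := by
    intro i hi
    have h1 : (n - Finsupp.single j 1 : Fin 4 →₀ ℕ) i = n i := by
      simp [(Finset.ne_of_mem_erase hi).symm]
    rw [h1]
  rw [Finset.sum_congr rfl h2, h1, Nat.cast_sub (by omega)]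
  push_cast
  ring

theorem sum_sub {n : Fin 4 →₀ ℕ} {j : Fin 4} (h : n j ≠ 0) :
    ∑ i, (n - Finsupp.single j 1 : Fin 4 →₀ ℕ) i + 1 = ∑ i, n i := by
  rw [← Finset.add_sum_erase _ _ (Finset.mem_univ j),
    ← Finset.add_sum_erase _ (fun i => n i) (Finset.mem_univ j)]
  have h1 : (n - Finsupp.single j 1 : Fin 4 →₀ ℕ) j = n j - 1 := by simp
  have h2 : ∀ i ∈ Finset.univ.erase j, (n - Finsupp.single j 1 : Fin 4 →₀ ℕ) i = n i := by
    intro i hi
    simp [(Finset.ne_of_mem_erase hi).symm]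
  rw [Finset.sum_congr rfl h2, h1]
  have h3 : (univ.erase j).sum ⇑n = ∑ x ∈ univ.erase j, n x := rfl
  omega

theorem ee_one (x : ZMod p) : ee (1 : ZMod p) x = 1 := by unfold ee; rw [one_pow]

theorem HM1_mul (a b : Fin 4 → ZMod p)
    (M : Matrix (ZMod p) (ZMod p) (MvPolynomial (Fin 4) (ZMod p))) (i i' : ZMod p) :
    (M * HM (1 : ZMod p) a b) i i' = ∑ j, M i (i' - a j) * X j := by
  rw [Matrix.mul_apply]
  simp only [HM_apply, hc, ee_one, Finset.mul_sum]
  rw [Finset.sum_comm]
  refine Finset.sum_congr rfl fun j _ => ?_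
  rw [Finset.sum_eq_single (i' - a j)]
  · rw [if_pos (by ring), C_1, one_mul]
  · intro l _ hl
    rw [if_neg (fun h => hl (by rw [h]; ring)), C_0, zero_mul, mul_zero]
  · simp

theorem pow_coeff (a b : Fin 4 → ZMod p) (r : ℕ) (i i' : ZMod p) (n : Fin 4 →₀ ℕ) :
    (fct n : ZMod p) * coeff n ((HM (1 : ZMod p) a b ^ r) i i') =
      if (∑ j, n j = r ∧ i' - i = wt a n) then (r ! : ZMod p) else 0 := by
  induction r generalizing i' n with
  | zero =>
    rw [pow_zero, Matrix.one_apply]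
    by_cases hn : n = 0
    · subst hn
      by_cases hi : i = i'
      · subst hi; simp [fct, wt]
      · have : ¬ (i' - i = 0) := fun h => hi (sub_eq_zero.1 h).symm
        simp [hi, wt, this]
    · have h1 : ¬ (∑ j, n j = 0 ∧ i' - i = wt a n) := by
        rintro ⟨h1, -⟩
        apply hn
        ext j
        rw [Finset.sum_eq_zero_iff] at h1
        exact h1 j (Finset.mem_univ _)
      rw [if_neg h1]
      have h2 : coeff n ((if i = i' then 1 else 0 : MvPolynomial (Fin 4) (ZMod p))) = 0 := by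
        split_ifs
        · rw [coeff_one, if_neg (fun h => hn h.symm)]
        · rw [coeff_zero]
      rw [h2, mul_zero]
  | succ r ih =>
    rw [pow_succ, HM1_mul, coeff_sum, Finset.mul_sum]
    have h1 : ∀ j, (fct n : ZMod p) * coeff n ((HM (1 : ZMod p) a b ^ r) i (i' - a j) * X j) =
        if (∑ j, n j = r + 1 ∧ i' - i = wt a n) then (n j : ZMod p) * (r ! : ZMod p) else 0 := by
      intro j
      rw [coeff_mul_X']
      by_cases hj : n j = 0
      · rw [if_neg (by simpa using hj), mul_zero, hj, Nat.cast_zero, zero_mul, ite_self]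
      · rw [if_pos (by simpa using hj), fct_sub hj, Nat.cast_mul, mul_assoc, ih, wt_sub hj]
        have h2 : (∑ i, (n - Finsupp.single j 1 : Fin 4 →₀ ℕ) i = r ∧
            i' - a j - i = wt a n - a j) ↔ (∑ j, n j = r + 1 ∧ i' - i = wt a n) := by
          rw [← sum_sub hj]
          constructor
          · rintro ⟨h3, h4⟩
            refine ⟨by omega, ?_⟩
            have := congrArg (fun x => x + a j) h4
            beta_reduce at this
            rw [sub_add_cancel] at this
            rw [← this]; ring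
          · rintro ⟨h3, h4⟩
            refine ⟨by omega, ?_⟩
            rw [← h4]; ring
        simp only [h2]
        split_ifs
        · rfl
        · rw [mul_zero]
    rw [Finset.sum_congr rfl (fun j _ => h1 j)]
    split_ifs with h2
    · rw [← Finset.sum_mul, ← Nat.cast_sum, h2.1, Nat.factorial_succ, Nat.cast_mul]
    · simp

/-- `∑ x_j ^ p` -/
noncomputable def SP (p : ℕ) : MvPolynomial (Fin 4) (ZMod p) := ∑ j, X j ^ p

theorem SP_ne : SP p ≠ 0 := by
  have hp : p ≠ 0 := (Fact.out : p.Prime).ne_zero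
  intro h
  have h1 := congrArg (eval (fun j => if j = 0 then (1 : ZMod p) else 0)) h
  unfold SP at h1
  rw [map_sum, Fin.sum_univ_four] at h1
  simp [hp] at h1

/-- shift matrices -/
noncomputable def SH (p : ℕ) [Fact p.Prime] (c : ZMod p) :
    Matrix (ZMod p) (ZMod p) (MvPolynomial (Fin 4) (ZMod p)) :=
  Matrix.of fun i i' => if i' = i + c then 1 else 0

theorem SH_mul (c d : ZMod p) : SH p c * SH p d = SH p (c + d) := by
  ext1 i i'
  rw [Matrix.mul_apply]
  simp only [SH, Matrix.of_apply]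
  rw [Finset.sum_eq_single (i + c)]
  · rw [if_pos rfl, one_mul]
    congr 1
    rw [add_assoc]
  · intro l _ hl
    rw [if_neg hl, zero_mul]
  · simp

theorem SH_zero : SH p 0 = 1 := by
  ext1 i i'
  simp only [SH, Matrix.of_apply, add_zero, Matrix.one_apply]
  simp [eq_comm]

theorem SH_pow (c : ZMod p) (r : ℕ) : SH p c ^ r = SH p ((r : ZMod p) * c) := by
  induction r with
  | zero => simp [SH_zero]
  | succ r ih => rw [pow_succ, ih, SH_mul]; congr 1; push_cast; ring

theorem HM1_eq (a b : Fin 4 → ZMod p) : HM (1 : ZMod p) a b =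
    ∑ j, (X j : MvPolynomial (Fin 4) (ZMod p)) • SH p (a j) := by
  ext1 i i'
  rw [HM_apply, Matrix.sum_apply]
  refine Finset.sum_congr rfl fun j _ => ?_
  simp only [hc, ee_one, Matrix.smul_apply, SH, Matrix.of_apply, smul_eq_mul]
  split_ifs <;> simp

theorem HM1_pow (a b : Fin 4 → ZMod p) : HM (1 : ZMod p) a b ^ p = SP p • 1 := by
  have : CharP (Matrix (ZMod p) (ZMod p) (MvPolynomial (Fin 4) (ZMod p))) p := inferInstance
  have hcomm : ∀ (x y : MvPolynomial (Fin 4) (ZMod p)) (c d : ZMod p),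
      Commute (x • SH p c) (y • SH p d) := by
    intro x y c d
    unfold Commute SemiconjBy
    rw [Matrix.smul_mul, Matrix.mul_smul, Matrix.smul_mul, Matrix.mul_smul, SH_mul, SH_mul,
      smul_smul, smul_smul, mul_comm x y, add_comm c d]
  have hp : ∀ (x : MvPolynomial (Fin 4) (ZMod p)) (c : ZMod p), (x • SH p c) ^ p = x ^ p • 1 := by
    intro x c
    rw [smul_pow, SH_pow, CharP.cast_eq_zero, zero_mul, SH_zero]
  rw [HM1_eq, Fin.sum_univ_four]
  rw [add_pow_char_of_commute, add_pow_char_of_commute, add_pow_char_of_commute, hp, hp, hp, hp]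
  · unfold SP
    rw [Fin.sum_univ_four, add_smul, add_smul, add_smul]
  · exact hcomm _ _ _ _
  · exact (hcomm _ _ _ _).add_left (hcomm _ _ _ _)
  · exact ((hcomm _ _ _ _).add_left (hcomm _ _ _ _)).add_left (hcomm _ _ _ _)

theorem HM1_det (a b : Fin 4 → ZMod p) : (HM (1 : ZMod p) a b).det = SP p := by
  have h1 := congrArg Matrix.det (HM1_pow a b)
  rw [Matrix.det_pow, Matrix.det_smul, Matrix.det_one, mul_one, ZMod.card] at h1
  exact frobenius_inj _ p h1

theorem HM1_adj (a b : Fin 4 → ZMod p) :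
    (HM (1 : ZMod p) a b).adjugate = HM (1 : ZMod p) a b ^ (p - 1) := by
  have hp : 1 ≤ p := (Fact.out : p.Prime).one_le
  set M := HM (1 : ZMod p) a b with hM
  have h1 : (M.adjugate - M ^ (p - 1)) * M = 0 := by
    rw [sub_mul, Matrix.adjugate_mul, ← pow_succ, Nat.sub_add_cancel hp, HM1_det, HM1_pow, sub_self]
  have h2 : (M.adjugate - M ^ (p - 1)) * M * M.adjugate = 0 := by rw [h1, zero_mul]
  rw [mul_assoc, Matrix.mul_adjugate, HM1_det, Matrix.mul_smul, mul_one] at h2
  have h3 := (smul_eq_zero.1 h2).resolve_left SP_ne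
  exact sub_eq_zero.1 h3

theorem adj_coeff (a b : Fin 4 → ZMod p) (i i' : ZMod p) (n : Fin 4 →₀ ℕ)
    (h1 : ∑ j, n j = p - 1) (h2 : i' - i = wt a n) :
    (fct n : ZMod p) * coeff n ((HM (1 : ZMod p) a b).adjugate i i') = ((p - 1)! : ZMod p) := by
  rw [HM1_adj, pow_coeff, if_pos ⟨h1, h2⟩]

/-- The coefficients `wj` modulo `1 - ζ`. -/
theorem wj_one (a b : Fin 4 → ZMod p) (j : Fin 4) (n : Fin 4 →₀ ℕ) (hn : ∑ j, n j = p) :
    (fct n : ZMod p) * wj (1 : ZMod p) a b j n = (n j : ZMod p) * ((p - 1)! : ZMod p) := by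
  unfold wj
  rw [coeff_X_mul']
  by_cases hj : n j = 0
  · rw [if_neg (by simpa using hj), mul_zero, hj, Nat.cast_zero, zero_mul]
  · rw [if_pos (by simpa using hj), fct_sub hj, Nat.cast_mul, mul_assoc, adj_coeff]
    · have := sum_sub hj
      omega
    · rw [wt_sub hj, sub_zero]

theorem wj_one_ne (a b : Fin 4 → ZMod p) (j : Fin 4) (n : Fin 4 →₀ ℕ) (hn : ∑ j, n j = p)
    (hj : n j ≠ 0) : wj (1 : ZMod p) a b j n ≠ 0 := by
  unfold wj
  rw [coeff_X_mul', if_pos (by simpa using hj)]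
  intro h0
  have h1 := adj_coeff a b 0 (wt a n - a j) (n - Finsupp.single j 1)
    (by have := sum_sub hj; omega) (by rw [wt_sub hj, sub_zero])
  rw [h0, mul_zero] at h1
  have h2 := ZMod.wilsons_lemma p
  rw [← h1] at h2
  exact one_ne_zero (neg_eq_zero.1 h2.symm)

end Pool.Agent.Helper74.SD
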